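import Mathlib
import Pool.Agent.H9.Lib.R_seed8.TH286.GT.Stms

/-!
Project GT, part D: from the subspace theorem for orbits to the growth of sums of powers.
-/

set_option autoImplicit false

open Finset Filter Topology

namespace Pool.Agent.TH286.GT

/-- D1: a sum of powers which is small infinitely often gives a rational linear relation: there is
a nonzero integer vector `y` with `∑_j y_j τ (nn t + j) = 0` frequently, where `τ m = ∑_i μ_i^m`. -/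
def PowOStmt (O : Type) [CommRing O] (φ : O →+* ℂ) : Prop :=
  ∀ (st : O →+* O) (_ : ∀ x, φ (st x) = (starRingEnd ℂ) (φ x)) (iO : O) (_ : φ iO = Complex.I)
    (n : ℕ) (μ : Fin n → O) (_ : Function.Injective μ) (_ : ∀ i, μ i ≠ 0)
    (p : Fin n → ℤ) (_ : ∀ i, μ i ^ n = ∑ j, ((p j : ℤ) : O) * μ i ^ (j : ℕ))
    (c : Fin n → O) (i0 : Fin n) (_ : c i0 ≠ 0) (R K0 : ℝ) (_ : 0 < R) (_ : 0 < K0)
    (_ : R < ‖φ (μ i0)‖) (nn : ℕ → ℕ) (_ : Tendsto nn atTop atTop)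
    (_ : ∀ t, ‖φ (∑ i, c i * μ i ^ nn t)‖ ≤ K0 * R ^ nn t),
    ∃ y : Fin n → ℤ, y ≠ 0 ∧ ∃ᶠ t in atTop, ∑ j, ((y j : ℤ) : O) * ∑ i, μ i ^ (nn t + j) = 0

/-- D2: growth of sums of powers for a nondegenerate family which is the set of roots of an integer
polynomial -/
def GrowOStmt (O : Type) [CommRing O] (φ : O →+* ℂ) : Prop :=
  ∀ (st : O →+* O) (_ : ∀ x, φ (st x) = (starRingEnd ℂ) (φ x)) (iO : O) (_ : φ iO = Complex.I)
    (n : ℕ) (μ : Fin n → O) (_ : ∀ i j, i ≠ j → ∀ k : ℕ, 1 ≤ k → μ i ^ k ≠ μ j ^ k)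
    (_ : ∀ i, μ i ≠ 0)
    (p : Fin n → ℤ) (_ : ∀ i, μ i ^ n = ∑ j, ((p j : ℤ) : O) * μ i ^ (j : ℕ))
    (c : Fin n → O) (i0 : Fin n) (_ : c i0 ≠ 0) (R K0 : ℝ) (_ : 0 < R) (_ : 0 < K0)
    (_ : R < ‖φ (μ i0)‖),
    ∃ N0 : ℕ, ∀ k : ℕ, N0 ≤ k → K0 * R ^ k < ‖φ (∑ i, c i * μ i ^ k)‖

end Pool.Agent.TH286.GT
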