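import Mathlib
import Pool.Agent.H9.Lib.R_seed8.TH286.GT.Stms
import Pool.Agent.H9.Lib.R_seed8.TH461.SST.AuxA

/-!
# Project GT, A1: the auxiliary polynomial for matrices over a finite free algebra over the integers
(job of helper286, written by helper75; adapted from `Pool.Agent.TH461.SST.AuxA` of helper989)
-/

set_option autoImplicit false

open Finset Filter Topology

namespace Pool.Agent.TH286.GT.AuxO

open Pool.Agent.TH286.GT
open Pool.Agent.TH461.SST (Big Ix wedge cpd Bal HeightPairStmt CBStmt SFStmt GapStmt CompStmt)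

namespace Help

open Pool.Agent.H393R2 (Dset mem_Dset)
open Pool.Agent.TH461.SST.Aux.Help

/-- the coefficients of the expansion -/
def KO {O : Type} [CommRing O] {m n : ℕ} (N : Matrix (Fin n) (Fin n) O)
    (a J : Fin m → Fin n → ℕ) : O :=
  ∑ f : Ts a → Fin n, if ty a f = J then ∏ t : Ts a, N t.1.2 (f t) else 0

/-- the expansion -/
lemma expandO {O : Type} [CommRing O] {R : Type*} [CommRing R] (ψ : O →+* R) {m n : ℕ}
    {r : Fin m → ℕ} {a : Fin m → Fin n → ℕ}
    (ha : a ∈ Dset m n r) (N : Matrix (Fin n) (Fin n) O) (W : Fin m → Fin n → R) :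
    ∏ h, ∏ l, (∑ i, ψ (N l i) * W h i) ^ (a h l) =
      ∑ J ∈ Dset m n r, ψ (KO N a J) * ∏ h, ∏ l, W h l ^ (J h l) := by
  classical
  rw [← prod_Ts a (fun h l => ∑ i, ψ (N l i) * W h i)]
  have h1 := Finset.prod_univ_sum (fun _ : Ts a => (univ : Finset (Fin n)))
    (fun t i => ψ (N t.1.2 i) * W t.1.1 i)
  rw [h1, Fintype.piFinset_univ]
  have h2 : ∀ f : Ts a → Fin n, ∏ t : Ts a, (ψ (N t.1.2 (f t)) * W t.1.1 (f t)) =
      ∑ J ∈ Dset m n r, (if ty a f = J then ψ (∏ t : Ts a, N t.1.2 (f t)) *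
        ∏ h, ∏ l, W h l ^ (J h l) else 0) := by
    intro f
    rw [sum_ite_eq, if_pos (ty_mem ha f), prod_mul_distrib, prod_ty, map_prod]
  rw [sum_congr rfl fun f _ => h2 f, sum_comm]
  refine sum_congr rfl fun J _ => ?_
  unfold KO
  rw [map_sum, sum_mul]
  refine sum_congr rfl fun f _ => ?_
  split_ifs
  · rfl
  · simp

/-- the properties of the size -/
structure Sz (O : Type) [CommRing O] (φ : O →+* ℂ) (ι : Type) (co : ι → O →ₗ[ℤ] ℤ) (h : O → ℝ)
    (Cp : ℝ) : Prop where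
  inj : ∀ x, (∀ k, co k x = 0) → x = 0
  nonneg : ∀ x, 0 ≤ h x
  zero : h 0 = 0
  add : ∀ x y, h (x + y) ≤ h x + h y
  mul : ∀ x y, h (x * y) ≤ h x * h y
  int : ∀ (z : ℤ) x, h ((z : O) * x) ≤ |(z : ℝ)| * h x
  co_le : ∀ k x, |(co k x : ℝ)| ≤ h x
  Cp_nonneg : 0 ≤ Cp
  norm_le : ∀ x, ‖φ x‖ ≤ Cp * h x

lemma exists_sz (O : Type) [CommRing O] [Module.Free ℤ O] [Module.Finite ℤ O] (φ : O →+* ℂ) :
    ∃ (ι : Type) (_ : Fintype ι) (co : ι → O →ₗ[ℤ] ℤ) (h : O → ℝ) (Cp : ℝ), Sz O φ ι co h Cp := by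
  classical
  let b := Module.Free.chooseBasis ℤ O
  let ι := Module.Free.ChooseBasisIndex ℤ O
  let co : ι → O →ₗ[ℤ] ℤ := fun k => b.coord k
  obtain ⟨c0, hc0, hc1⟩ : ∃ c0 : ℝ, 1 ≤ c0 ∧
      ∀ i j : ι, ∑ k, |(co k (b i * b j) : ℝ)| ≤ c0 := by
    refine ⟨1 + ∑ i : ι, ∑ j : ι, ∑ k, |(co k (b i * b j) : ℝ)|, ?_, ?_⟩
    · have : 0 ≤ ∑ i : ι, ∑ j : ι, ∑ k, |(co k (b i * b j) : ℝ)| :=
        sum_nonneg fun _ _ => sum_nonneg fun _ _ => sum_nonneg fun _ _ => abs_nonneg _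
      linarith
    · intro i j
      have h1 : ∑ k, |(co k (b i * b j) : ℝ)| ≤ ∑ j : ι, ∑ k, |(co k (b i * b j) : ℝ)| :=
        single_le_sum (f := fun j : ι => ∑ k, |(co k (b i * b j) : ℝ)|)
          (fun _ _ => sum_nonneg fun _ _ => abs_nonneg _) (mem_univ j)
      have h2 : ∑ j : ι, ∑ k, |(co k (b i * b j) : ℝ)| ≤
          ∑ i : ι, ∑ j : ι, ∑ k, |(co k (b i * b j) : ℝ)| :=
        single_le_sum (f := fun i : ι => ∑ j : ι, ∑ k, |(co k (b i * b j) : ℝ)|)
          (fun _ _ => sum_nonneg fun _ _ => sum_nonneg fun _ _ => abs_nonneg _) (mem_univ i)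
      linarith
  have hsum : ∀ x : O, x = ∑ i : ι, ((co i x : ℤ) : O) * b i := by
    intro x
    conv_lhs => rw [← b.sum_repr x]
    refine sum_congr rfl fun i _ => ?_
    rw [zsmul_eq_mul]
    rfl
  set g : O → ℝ := fun x => ∑ k, |(co k x : ℝ)| with hg
  have hg0 : ∀ x, 0 ≤ g x := fun x => sum_nonneg fun _ _ => abs_nonneg _
  have hgadd : ∀ x y, g (x + y) ≤ g x + g y := by
    intro x y
    simp only [hg]
    rw [← sum_add_distrib]
    refine sum_le_sum fun k _ => ?_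
    rw [map_add]
    push_cast
    exact abs_add_le _ _
  have hgint : ∀ (z : ℤ) x, g ((z : O) * x) = |(z : ℝ)| * g x := by
    intro z x
    simp only [hg]
    rw [mul_sum]
    refine sum_congr rfl fun k _ => ?_
    rw [← zsmul_eq_mul, map_zsmul, zsmul_eq_mul]
    push_cast
    rw [abs_mul]
  have hgzero : g 0 = 0 := by
    simp only [hg, map_zero, Int.cast_zero, abs_zero, sum_const_zero]
  have hgsum : ∀ (s : Finset ι) (F : ι → O), g (∑ i ∈ s, F i) ≤ ∑ i ∈ s, g (F i) := by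
    intro s F
    induction s using Finset.induction_on with
    | empty => rw [sum_empty, sum_empty, hgzero]
    | insert a s ha ih =>
      rw [sum_insert ha, sum_insert ha]
      exact (hgadd _ _).trans (by linarith)
  have hgmul : ∀ x y, g (x * y) ≤ c0 * (g x * g y) := by
    intro x y
    have e : x * y = ∑ i : ι, ∑ j : ι, ((co i x * co j y : ℤ) : O) * (b i * b j) := by
      conv_lhs => rw [hsum x, hsum y, sum_mul_sum]
      refine sum_congr rfl fun i _ => sum_congr rfl fun j _ => ?_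
      push_cast
      ring
    have h1 : g (x * y) ≤ ∑ i : ι, ∑ j : ι, |(co i x : ℝ)| * |(co j y : ℝ)| * c0 := by
      rw [e]
      refine (hgsum _ _).trans (sum_le_sum fun i _ => (hgsum _ _).trans (sum_le_sum fun j _ => ?_))
      rw [hgint]
      push_cast
      rw [abs_mul]
      exact mul_le_mul_of_nonneg_left (hc1 i j) (by positivity)
    refine h1.trans (le_of_eq ?_)
    simp only [hg]
    rw [sum_mul_sum, mul_sum]
    refine sum_congr rfl fun i _ => ?_
    rw [mul_sum]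
    refine sum_congr rfl fun j _ => ?_
    ring
  refine ⟨ι, inferInstance, co, fun x => c0 * g x, ∑ i : ι, ‖φ (b i)‖, ?_⟩
  have hc00 : 0 ≤ c0 := by linarith
  constructor
  · intro x hx
    rw [hsum x]
    refine sum_eq_zero fun i _ => ?_
    rw [hx i, Int.cast_zero, zero_mul]
  · intro x
    exact mul_nonneg hc00 (hg0 x)
  · show c0 * g 0 = 0
    rw [hgzero, mul_zero]
  · intro x y
    have := mul_le_mul_of_nonneg_left (hgadd x y) hc00
    show c0 * g (x + y) ≤ c0 * g x + c0 * g y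
    linarith
  · intro x y
    have := mul_le_mul_of_nonneg_left (hgmul x y) hc00
    show c0 * g (x * y) ≤ c0 * g x * (c0 * g y)
    refine this.trans (le_of_eq ?_)
    ring
  · intro z x
    show c0 * g ((z : O) * x) ≤ |(z : ℝ)| * (c0 * g x)
    rw [hgint]
    refine le_of_eq ?_
    ring
  · intro k x
    have h1 : |(co k x : ℝ)| ≤ g x :=
      single_le_sum (f := fun k => |(co k x : ℝ)|) (fun _ _ => abs_nonneg _) (mem_univ k)
    show |(co k x : ℝ)| ≤ c0 * g x
    have := hg0 x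
    nlinarith
  · exact sum_nonneg fun _ _ => norm_nonneg _
  · intro x
    have h1 : ‖φ x‖ ≤ ∑ i : ι, |(co i x : ℝ)| * ‖φ (b i)‖ := by
      conv_lhs => rw [hsum x, map_sum]
      refine (norm_sum_le _ _).trans (sum_le_sum fun i _ => ?_)
      rw [map_mul, map_intCast, norm_mul, Complex.norm_intCast]
    have h2 : ∑ i : ι, |(co i x : ℝ)| * ‖φ (b i)‖ ≤ ∑ i : ι, g x * ‖φ (b i)‖ := by
      refine sum_le_sum fun i _ => mul_le_mul_of_nonneg_right ?_ (norm_nonneg _)
      exact single_le_sum (f := fun k => |(co k x : ℝ)|) (fun _ _ => abs_nonneg _) (mem_univ i)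
    have h3 : g x ≤ c0 * g x := by
      have := hg0 x
      nlinarith
    have h4 : 0 ≤ ∑ i : ι, ‖φ (b i)‖ := sum_nonneg fun _ _ => norm_nonneg _
    show ‖φ x‖ ≤ (∑ i : ι, ‖φ (b i)‖) * (c0 * g x)
    rw [← mul_sum] at h2
    nlinarith

section

variable {O : Type} [CommRing O] {φ : O →+* ℂ} {ι : Type} {co : ι → O →ₗ[ℤ] ℤ} {h : O → ℝ}
  {Cp : ℝ}

lemma Sz.sum (H : Sz O φ ι co h Cp) {α : Type*} (s : Finset α) (F : α → O) :
    h (∑ i ∈ s, F i) ≤ ∑ i ∈ s, h (F i) := by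
  classical
  induction s using Finset.induction_on with
  | empty => rw [sum_empty, sum_empty, H.zero]
  | insert a s ha ih =>
    rw [sum_insert ha, sum_insert ha]
    exact (H.add _ _).trans (by linarith)

lemma Sz.prod (H : Sz O φ ι co h Cp) {α : Type*} (s : Finset α) (F : α → O) :
    h (∏ i ∈ s, F i) ≤ h 1 * ∏ i ∈ s, h (F i) := by
  classical
  induction s using Finset.induction_on with
  | empty => rw [prod_empty, prod_empty, mul_one]
  | insert a s ha ih =>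
    rw [prod_insert ha, prod_insert ha]
    refine (H.mul _ _).trans ?_
    have := mul_le_mul_of_nonneg_left ih (H.nonneg (F a))
    linarith

/-- the size of the coefficients -/
lemma KO_le (H : Sz O φ ι co h Cp) {m n : ℕ} {r : Fin m → ℕ} {a : Fin m → Fin n → ℕ}
    (ha : a ∈ Dset m n r) (N : Matrix (Fin n) (Fin n) O) (J : Fin m → Fin n → ℕ) (B : ℝ)
    (hB : ∀ l, ∑ i, h (N l i) ≤ B) : h (KO N a J) ≤ h 1 * B ^ (∑ h, r h) := by
  classical
  unfold KO
  calc h (∑ f : Ts a → Fin n, if ty a f = J then ∏ t : Ts a, N t.1.2 (f t) else 0)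
      ≤ ∑ f : Ts a → Fin n, h (if ty a f = J then ∏ t : Ts a, N t.1.2 (f t) else 0) :=
        H.sum _ _
    _ ≤ ∑ f : Ts a → Fin n, h 1 * ∏ t : Ts a, h (N t.1.2 (f t)) := by
        refine sum_le_sum fun f _ => ?_
        split_ifs
        · exact H.prod _ _
        · rw [H.zero]
          exact mul_nonneg (H.nonneg _) (prod_nonneg fun _ _ => H.nonneg _)
    _ = h 1 * ∏ t : Ts a, ∑ i, h (N t.1.2 i) := by
        have h1 := Finset.prod_univ_sum (fun _ : Ts a => (univ : Finset (Fin n)))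
          (fun t i => h (N t.1.2 i))
        rw [h1, Fintype.piFinset_univ, mul_sum]
    _ ≤ h 1 * ∏ _t : Ts a, B := by
        refine mul_le_mul_of_nonneg_left ?_ (H.nonneg _)
        exact prod_le_prod (fun _ _ => sum_nonneg fun _ _ => H.nonneg _) fun t _ => hB _
    _ = h 1 * B ^ (∑ h, r h) := by
        rw [prod_const, card_univ, card_Ts ha]

end

end Help

open Help in
open Pool.Agent.H393R2 (Dset mem_Dset) in
open Pool.Agent.H393R2.AuxNS (bad_card card_Dset_le Dset_nonempty) in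
theorem auxO (O : Type) [CommRing O] [IsDomain O] [Module.Free ℤ O] [Module.Finite ℤ O] (φ : O →+* ℂ) :
    AuxOStmt O φ := by
  classical
  obtain ⟨ι, hι, co, hh, Cp, H⟩ := exists_sz O φ
  intro n hn s M τ hτ
  set e := Fintype.card ι with he
  set H1 : ℝ := max 1 (hh 1) with hH1
  have hH11 : 1 ≤ H1 := le_max_left _ _
  -- a common bound for the rows
  obtain ⟨B0, hB01, hB0⟩ : ∃ B : ℝ, 1 ≤ B ∧ ∀ v l, ∑ i, hh (M v l i) ≤ B := by
    refine ⟨1 + ∑ v, ∑ l, ∑ i, hh (M v l i), ?_, ?_⟩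
    · have : 0 ≤ ∑ v, ∑ l, ∑ i, hh (M v l i) :=
        sum_nonneg fun _ _ => sum_nonneg fun _ _ => sum_nonneg fun _ _ => H.nonneg _
      linarith
    · intro v l
      have h2 : ∑ i, hh (M v l i) ≤ ∑ l, ∑ i, hh (M v l i) :=
        single_le_sum (f := fun l => ∑ i, hh (M v l i))
          (fun _ _ => sum_nonneg fun _ _ => H.nonneg _) (mem_univ l)
      have h3 : ∑ l, ∑ i, hh (M v l i) ≤ ∑ v, ∑ l, ∑ i, hh (M v l i) :=
        single_le_sum (f := fun v => ∑ l, ∑ i, hh (M v l i))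
          (fun _ _ => sum_nonneg fun _ _ => sum_nonneg fun _ _ => H.nonneg _) (mem_univ v)
      linarith
  set B : ℝ := H1 * B0 with hB
  have hB1' : (1 : ℝ) ≤ B := by
    rw [hB]
    nlinarith
  set P : ℝ := max 1 Cp with hP
  have hP1 : 1 ≤ P := le_max_left _ _
  have h2n : (1 : ℝ) ≤ 2 ^ n := one_le_pow₀ (by norm_num)
  have hC1 : (1 : ℝ) ≤ 2 ^ n * B := by nlinarith
  have hC2 : (1 : ℝ) ≤ 2 ^ n * B * (2 ^ n * B) := by nlinarith
  refine ⟨P * (2 ^ n * B * (2 ^ n * B)), by nlinarith, ⌈2 * ((s * e : ℕ) : ℝ) * n / τ ^ 2⌉₊ + 1, ?_⟩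
  intro m hm r hr
  have hm0 : 0 < m := by omega
  have hm0' : (0 : ℝ) < m := by exact_mod_cast hm0
  have hn' : (0 : ℝ) < n := by exact_mod_cast hn
  have hmge : 2 * ((s * e : ℕ) : ℝ) * n / τ ^ 2 ≤ m := by
    refine (Nat.le_ceil _).trans ?_
    have : ⌈2 * ((s * e : ℕ) : ℝ) * n / τ ^ 2⌉₊ ≤ m := by omega
    exact_mod_cast this
  set D := Dset m n r with hD
  set Nr := ∑ h, r h with hNr
  have hNr1 : 1 ≤ Nr := by
    rw [hNr]
    have h1 : r ⟨0, hm0⟩ ≤ ∑ h, r h :=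
      single_le_sum (f := fun h => r h) (fun _ _ => Nat.zero_le _) (mem_univ _)
    have h2 := hr ⟨0, hm0⟩
    omega
  have hKle : ∀ v, ∀ a ∈ D, ∀ J, hh (KO (M v) a J) ≤ B ^ Nr := by
    intro v a ha J
    refine (KO_le H (r := r) ha (M v) J B0 (hB0 v)).trans ?_
    rw [hB, mul_pow]
    refine mul_le_mul_of_nonneg_right ?_ (by positivity)
    calc hh 1 ≤ H1 := le_max_right _ _
      _ = H1 ^ 1 := (pow_one _).symm
      _ ≤ H1 ^ Nr := pow_le_pow_right₀ hH11 hNr1
  have hDne : D.Nonempty := Dset_nonempty hn r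
  have hDpos' : (0 : ℝ) < D.card := by exact_mod_cast hDne.card_pos
  have hDle : (D.card : ℝ) ≤ (2 ^ n) ^ Nr := by exact_mod_cast card_Dset_le r
  set Bad := D.filter (fun a => ∃ l : Fin n,
      τ * m < |∑ h, ((a h l : ℝ) / (r h : ℝ) - 1 / (n : ℝ))|) with hBad
  have hBadcard : 2 * ((s * e) * Bad.card) ≤ D.card := by
    have h1 : (Bad.card : ℝ) ≤ n * (D.card / (τ ^ 2 * m)) := bad_card hn r hr τ hτ hm0
    have h2 : 2 * (((s * e : ℕ) : ℝ) * (n * ((D.card : ℝ) / (τ ^ 2 * m)))) ≤ D.card := by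
      have h3 : 2 * (((s * e : ℕ) : ℝ) * (n * ((D.card : ℝ) / (τ ^ 2 * m)))) =
          (2 * ((s * e : ℕ) : ℝ) * n / τ ^ 2) * (D.card / m) := by
        field_simp
      rw [h3]
      calc (2 * ((s * e : ℕ) : ℝ) * n / τ ^ 2) * ((D.card : ℝ) / m) ≤ m * ((D.card : ℝ) / m) :=
            mul_le_mul_of_nonneg_right hmge (by positivity)
        _ = D.card := by field_simp
    have h4 : 2 * (((s * e : ℕ) : ℝ) * Bad.card) ≤ D.card := by
      refine le_trans ?_ h2
      have hs : (0 : ℝ) ≤ ((s * e : ℕ) : ℝ) := by positivity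
      nlinarith [mul_le_mul_of_nonneg_left h1 hs]
    exact_mod_cast h4
  have hdev : ∀ (a : Fin m → Fin n → ℕ) (l : Fin n),
      ∑ h, ((a h l : ℝ) / (r h : ℝ) - 1 / (n : ℝ)) = ∑ h, (a h l : ℝ) / (r h : ℝ) - m / n := by
    intro a l
    rw [Finset.sum_sub_distrib]; simp [div_eq_mul_inv]
  -- Siegel's lemma
  let A : Matrix ((Fin s × ι) × ↥Bad) ↥D ℤ :=
    Matrix.of fun vJ a => co vJ.1.2 (KO (M vJ.1.1) a.1 vJ.2.1)
  have : Nonempty ↥D := hDne.to_subtype
  obtain ⟨t, ht0, hAt, htn⟩ := Pool.Agent.TH461.SST.Aux.Help.siegel A (B ^ Nr)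
    (one_le_pow₀ hB1') (by
      intro i j
      simp only [A, Matrix.of_apply]
      exact (H.co_le _ _).trans (hKle _ _ j.2 _)) (by
      rw [Fintype.card_prod, Fintype.card_prod, Fintype.card_coe, Fintype.card_fin,
        Fintype.card_coe]
      exact hBadcard)
  rw [Fintype.card_coe] at htn
  obtain ⟨c, hc1, hc0⟩ : ∃ c : (Fin m → Fin n → ℕ) → ℤ,
      (∀ a (h : a ∈ D), c a = t ⟨a, h⟩) ∧ (∀ a, a ∉ D → c a = 0) :=
    ⟨fun a => if h : a ∈ D then t ⟨a, h⟩ else 0, fun a h => dif_pos h, fun a h => dif_neg h⟩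
  have hcb : ∀ a ∈ D, |(c a : ℝ)| ≤ (2 ^ n * B) ^ Nr := by
    intro a ha
    rw [hc1 a ha, mul_pow]
    exact (htn ⟨a, ha⟩).trans (mul_le_mul_of_nonneg_right hDle (by positivity))
  have hCpow0 : ((2 : ℝ) ^ n * B) ^ Nr ≤ (2 ^ n * B * (2 ^ n * B)) ^ Nr :=
    pow_le_pow_left₀ (by positivity) (by nlinarith) _
  have hCpow1 : ((2 : ℝ) ^ n * B * (2 ^ n * B)) ^ Nr ≤ (P * (2 ^ n * B * (2 ^ n * B))) ^ Nr :=
    pow_le_pow_left₀ (by positivity) (by nlinarith) _
  refine ⟨c, ?_, fun a ha => (hcb a ha).trans (hCpow0.trans hCpow1), ?_⟩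
  · obtain ⟨a, ha⟩ := Function.ne_iff.mp ht0
    refine ⟨a.1, a.2, ?_⟩
    rw [hc1 a.1 a.2]; exact ha
  · intro v
    refine ⟨fun J => ∑ a ∈ D, ((c a : ℤ) : O) * KO (M v) a J, ?_, ?_, ?_⟩
    · intro J _
      refine (H.norm_le _).trans ?_
      have h0 : hh (∑ a ∈ D, ((c a : ℤ) : O) * KO (M v) a J) ≤
          (2 ^ n * B * (2 ^ n * B)) ^ Nr := by
        refine (H.sum _ _).trans ?_
        have h1 : ∀ a ∈ D, hh (((c a : ℤ) : O) * KO (M v) a J) ≤
            (2 ^ n * B) ^ Nr * B ^ Nr := by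
          intro a ha
          refine (H.int _ _).trans ?_
          exact mul_le_mul (hcb a ha) (hKle v a ha J) (H.nonneg _) (by positivity)
        refine (sum_le_card_nsmul _ _ _ h1).trans ?_
        rw [nsmul_eq_mul]
        calc (D.card : ℝ) * ((2 ^ n * B) ^ Nr * B ^ Nr) ≤
              (2 ^ n) ^ Nr * ((2 ^ n * B) ^ Nr * B ^ Nr) :=
              mul_le_mul_of_nonneg_right hDle (by positivity)
          _ = (2 ^ n * B * (2 ^ n * B)) ^ Nr := by
              rw [mul_pow, mul_pow]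
              ring
      calc Cp * hh (∑ a ∈ D, ((c a : ℤ) : O) * KO (M v) a J) ≤
          P ^ Nr * (2 ^ n * B * (2 ^ n * B)) ^ Nr := by
            refine mul_le_mul ?_ h0 (H.nonneg _) (by positivity)
            calc Cp ≤ P := le_max_right _ _
              _ = P ^ 1 := (pow_one _).symm
              _ ≤ P ^ Nr := pow_le_pow_right₀ hP1 hNr1
        _ = (P * (2 ^ n * B * (2 ^ n * B))) ^ Nr := by rw [← mul_pow]
    · intro J hJ hdJ l
      by_contra hlt
      push Not at hlt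
      apply hdJ
      have hJB : J ∈ Bad := by
        rw [hBad, mem_filter]
        refine ⟨hJ, l, ?_⟩
        rw [hdev]
        exact hlt
      refine H.inj _ fun k => ?_
      have h3 := congrFun hAt ((v, k), ⟨J, hJB⟩)
      simp only [Matrix.mulVec, dotProduct, A, Matrix.of_apply, Pi.zero_apply] at h3
      show co k (∑ a ∈ D, ((c a : ℤ) : O) * KO (M v) a J) = 0
      rw [← h3, map_sum, ← sum_coe_sort D]
      refine sum_congr rfl fun a _ => ?_
      rw [hc1 a.1 a.2, ← zsmul_eq_mul, map_zsmul, zsmul_eq_mul]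
      push_cast
      ring
    · intro R _ ψ W
      have h1 : ∀ a ∈ D, (c a : R) * ∏ h, ∏ l, (∑ i, ψ (M v l i) * W h i) ^ (a h l) =
          ∑ J ∈ D, (c a : R) * (ψ (KO (M v) a J) * ∏ h, ∏ l, W h l ^ (J h l)) := by
        intro a ha
        rw [expandO ψ (r := r) ha (M v) W, mul_sum]
      rw [sum_congr rfl h1, sum_comm]
      refine sum_congr rfl fun J _ => ?_
      rw [map_sum, sum_mul]
      refine sum_congr rfl fun a _ => ?_
      rw [map_mul, map_intCast]
      ring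

end Pool.Agent.TH286.GT.AuxO
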