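import Mathlib
import Pool.Agent.H9.Lib.R_seed8.TH286.GT.Stms
import Pool.Agent.H9.Lib.R_seed8.TH461.SST.Expand

/-!
Project GT, A2 (job 2881): the divided derivative in terms of other forms, over an algebra
(the proof of `Pool.Agent.TH461.SST.Expand`, adapted).
-/

set_option autoImplicit false

open Finset Filter Topology

namespace Pool.Agent.TH286.GT.ExpandO

open Pool.Agent.TH286.GT
open Pool.Agent.TH461.SST (Big Ix wedge cpd Bal HeightPairStmt CBStmt SFStmt GapStmt CompStmt)
open Pool.Agent.H393R2 (Dset bterm Sk mem_Dset)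
open Pool.Agent.TH461.SST.Expand (coeff_sep coeff_bterm coeff_block)

theorem expandO (O : Type) [CommRing O] : ExpandOStmt O := by
  classical
  intro R _ ψ m n r j1 k c d M hsub W
  set kk : Fin m →₀ ℕ := Finsupp.equivFunOnFinite.symm k with hkk
  -- the substitution
  have hS := hsub (MvPolynomial (Fin m) R) ((MvPolynomial.C : R →+* MvPolynomial (Fin m) R).comp ψ)
    (fun h i => MvPolynomial.C (∑ j, ψ (M i j) * W h j) + MvPolynomial.X h *
      MvPolynomial.C (ψ (M i j1)))
  simp only [RingHom.comp_apply] at hS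
  have hlin : ∀ (h : Fin m) (l : Fin n), (∑ i, (MvPolynomial.C (ψ (M.adjugate l i)) :
        MvPolynomial (Fin m) R) *
      (MvPolynomial.C (∑ j, ψ (M i j) * W h j) + MvPolynomial.X h *
      MvPolynomial.C (ψ (M i j1)))) =
      (MvPolynomial.C (ψ M.det) : MvPolynomial (Fin m) R) *
        (MvPolynomial.C (W h l) + if l = j1 then MvPolynomial.X h else 0) := by
    intro h l
    have hadj : ∀ j : Fin n, ∑ i, M.adjugate l i * M i j = if l = j then M.det else 0 := by
      intro j
      have h1 := congrFun (congrFun (Matrix.adjugate_mul M) l) j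
      rw [Matrix.mul_apply, Matrix.smul_apply, Matrix.one_apply] at h1
      rw [h1]
      by_cases h2 : l = j
      · rw [if_pos h2, if_pos h2, smul_eq_mul, mul_one]
      · rw [if_neg h2, if_neg h2, smul_zero]
    have hadjS : ∀ j : Fin n, ∑ i, (MvPolynomial.C (ψ (M.adjugate l i)) :
        MvPolynomial (Fin m) R) * (MvPolynomial.C (ψ (M i j)) : MvPolynomial (Fin m) R) =
        if l = j then (MvPolynomial.C (ψ M.det) : MvPolynomial (Fin m) R) else 0 := by
      intro j
      have h1 := congrArg (fun z : O => (MvPolynomial.C (ψ z) : MvPolynomial (Fin m) R)) (hadj j)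
      simp only [map_sum, map_mul] at h1
      rw [h1]
      split_ifs <;> simp
    have e1 : ∀ i, (MvPolynomial.C (ψ (M.adjugate l i)) : MvPolynomial (Fin m) R) *
        (MvPolynomial.C (∑ j, ψ (M i j) * W h j) + MvPolynomial.X h *
        MvPolynomial.C (ψ (M i j1))) =
        ∑ j, ((MvPolynomial.C (ψ (M.adjugate l i)) : MvPolynomial (Fin m) R) *
          (MvPolynomial.C (ψ (M i j)) : MvPolynomial (Fin m) R)) *
          (MvPolynomial.C (W h j) + if j = j1 then MvPolynomial.X h else 0) := by
      intro i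
      simp only [mul_add, Finset.sum_add_distrib, mul_ite, mul_zero, Finset.sum_ite_eq',
        Finset.mem_univ, if_true, map_sum, map_mul]
      congr 1
      · rw [Finset.mul_sum]
        exact Finset.sum_congr rfl fun j _ => by ring
      · ring
    rw [Finset.sum_congr rfl fun i _ => e1 i, Finset.sum_comm]
    rw [Finset.sum_congr rfl fun j _ => by rw [← Finset.sum_mul, hadjS j]]
    simp only [ite_mul, zero_mul, Finset.sum_ite_eq, Finset.mem_univ, if_true]
  -- coefficients of the left side
  have hL : ∀ a ∈ Dset m n r, MvPolynomial.coeff kk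
      (((c a : ℤ) : MvPolynomial (Fin m) R) * ∏ h, ∏ l,
        (∑ i, (MvPolynomial.C (ψ (M.adjugate l i)) : MvPolynomial (Fin m) R) *
      (MvPolynomial.C (∑ j, ψ (M i j) * W h j) + MvPolynomial.X h *
      MvPolynomial.C (ψ (M i j1)))) ^ (a h l)) =
      ψ M.det ^ (∑ h, r h) * (((c a : ℤ) : R) * ∏ h, bterm j1 (k h) (a h) (W h)) := by
    intro a ha
    have ha' := mem_Dset.1 ha
    have e1 : ∏ h, ∏ l, (∑ i, (MvPolynomial.C (ψ (M.adjugate l i)) : MvPolynomial (Fin m) R) *
        (MvPolynomial.C (∑ j, ψ (M i j) * W h j) + MvPolynomial.X h *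
        MvPolynomial.C (ψ (M i j1)))) ^ (a h l) =
        MvPolynomial.C (ψ M.det ^ (∑ h, r h)) *
          ∏ h, Polynomial.aeval (MvPolynomial.X h : MvPolynomial (Fin m) R)
            (∏ l, (Polynomial.C (W h l) + if l = j1 then Polynomial.X else 0) ^ a h l :
              Polynomial R) := by
      have e2 : (MvPolynomial.C (ψ M.det ^ (∑ h, r h)) : MvPolynomial (Fin m) R) =
          ∏ h, (MvPolynomial.C (ψ M.det) : MvPolynomial (Fin m) R) ^ r h := by
        rw [Finset.prod_pow_eq_pow_sum, map_pow]
      rw [e2, ← Finset.prod_mul_distrib]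
      refine Finset.prod_congr rfl fun h _ => ?_
      rw [← ha' h, ← Finset.prod_pow_eq_pow_sum, map_prod, ← Finset.prod_mul_distrib]
      refine Finset.prod_congr rfl fun l _ => ?_
      rw [hlin h l, mul_pow, map_pow, map_add, Polynomial.aeval_C]
      congr 3
      split_ifs
      · rw [Polynomial.aeval_X]
      · rw [map_zero]
    rw [e1, ← map_intCast (MvPolynomial.C : R →+* MvPolynomial (Fin m) R), MvPolynomial.coeff_C_mul,
      MvPolynomial.coeff_C_mul, coeff_sep]
    rw [Finset.prod_congr rfl fun h _ => coeff_bterm j1 (k h) (a h) (W h)]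
    ring
  -- coefficients of the right side
  have hR : ∀ J ∈ Dset m n r, MvPolynomial.coeff kk
      ((MvPolynomial.C (ψ (d J)) : MvPolynomial (Fin m) R) * ∏ h, ∏ l,
        (MvPolynomial.C (∑ j, ψ (M l j) * W h j) + MvPolynomial.X h *
      MvPolynomial.C (ψ (M l j1))) ^ (J h l)) =
      ψ (d J) * ∏ h,
        ∑ κ ∈ Finset.piAntidiag (Finset.univ : Finset (Fin n)) (k h),
          ∏ l, ((((J h l).choose (κ l) : ℕ) : R) * ψ (M l j1) ^ (κ l) *
            (∑ i, ψ (M l i) * W h i) ^ (J h l - κ l)) := by
    intro J _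
    have e1 : ∏ h, ∏ l, (MvPolynomial.C (∑ j, ψ (M l j) * W h j) + MvPolynomial.X h *
        MvPolynomial.C (ψ (M l j1))) ^ (J h l) =
          ∏ h, Polynomial.aeval (MvPolynomial.X h : MvPolynomial (Fin m) R)
            (∏ l, (Polynomial.C (∑ j, ψ (M l j) * W h j) +
              Polynomial.X * Polynomial.C (ψ (M l j1))) ^ J h l : Polynomial R) := by
      refine Finset.prod_congr rfl fun h _ => ?_
      rw [map_prod]
      refine Finset.prod_congr rfl fun l _ => ?_
      rw [map_pow, map_add, map_mul, Polynomial.aeval_C, Polynomial.aeval_C, Polynomial.aeval_X]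
      rfl
    rw [e1, MvPolynomial.coeff_C_mul, coeff_sep]
    rw [Finset.prod_congr rfl fun h _ => coeff_block (k h) (J h) _ _]
  have hfin := congrArg (MvPolynomial.coeff kk) hS
  rw [MvPolynomial.coeff_sum, MvPolynomial.coeff_sum] at hfin
  rw [Finset.sum_congr rfl hL, Finset.sum_congr rfl hR, ← Finset.mul_sum] at hfin
  exact hfin

end Pool.Agent.TH286.GT.ExpandO
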