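import Mathlib
import Pool.Agent.H9.Lib.R_seed8.TH286.GT.Stms
import Pool.Agent.H9.Lib.R_seed8.TH461.SST.Pen

/-!
Project GT, A8: the penultimate theorem (assembly), adapted from `Pool.Agent.TH461.SST.Pen`.
-/

set_option autoImplicit false

open Finset Filter Topology

namespace Pool.Agent.TH286.GT.PenO

open Pool.Agent.TH286.GT
open Pool.Agent.TH461.SST (Big Ix wedge cpd Bal HeightPairStmt CBStmt SFStmt GapStmt CompStmt)

theorem sizeO_mono {ι : Type} [Fintype ι] [DecidableEq ι] {c c' γ N : ℝ}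
    {B : Matrix ι ι ℤ} {A : ι → ℝ} (h : SizeO c γ N B A) (hc : c ≤ c') (hN : 0 ≤ N) :
    SizeO c' γ N B A := by
  obtain ⟨h1, h2, h3, h4⟩ := h
  have h5 : c * N ≤ c' * N := mul_le_mul_of_nonneg_right hc hN
  exact ⟨h1.trans h5, h2, fun l => (h3 l).trans h5, h4⟩

theorem penO (O : Type) [CommRing O] [IsDomain O] [Module.Free ℤ O] [Module.Finite ℤ O] (φ : O →+* ℂ)
    (hcore : CoreOStmt O φ) (hhp : HeightPairStmt) (hdich : DichOStmt O φ) : PenOStmt O φ := by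
  intro n' hn' s M0 M lam hP c γ hc hγ N hN kk B hB A hS w hw hSol
  choose y hy0 hyw using fun t => Pool.Agent.TH461.SST.Pen.exists_perp n' (w t)
  obtain ⟨c0, hc0, Y, hY, N1, hD⟩ := hdich n' M0 M hP.1 hP.2.2.1 γ hγ
  by_cases hfr : ∃ᶠ t in atTop, N1 ≤ N t ∧ ∃ z : Fin (n' + 1) → ℤ, z ≠ 0 ∧
      (∀ i j, y t i * z j = y t j * z i) ∧ ∀ l, |(z l : ℝ)| ≤ Real.exp (c0 * N t)
  · have h1 : ∃ᶠ t in atTop, ∃ y' ∈ Y, ∀ i, ∑ l, y' l * w t i l = 0 := by
      refine hfr.mono ?_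
      rintro t ⟨hNt, z, hz0, hz, hzb⟩
      refine hD c (N t) hNt (bet lam (kk t)) (B t) (hB t) (A t) (hS t) (w t) (hw t) (hSol t) z hz0
        (fun i => ?_) hzb
      obtain ⟨i0, hi0⟩ := Function.ne_iff.1 (hy0 t)
      have hi0' : y t i0 ≠ 0 := hi0
      apply mul_left_cancel₀ hi0'
      rw [mul_zero, Finset.mul_sum]
      calc ∑ l, y t i0 * (z l * w t i l) = ∑ l, z i0 * (y t l * w t i l) := by
            refine Finset.sum_congr rfl fun l _ => ?_
            linear_combination (w t i l) * hz i0 l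
        _ = 0 := by rw [← Finset.mul_sum, hyw t i, mul_zero]
    obtain ⟨y', hy'Y, hy'⟩ := Pool.Agent.TH461.SST.Pen.freq_exists_mem Y _ h1
    exact ⟨y', hY y' hy'Y, hy'⟩
  · exfalso
    have h1 := Filter.not_frequently.1 hfr
    have h2 : ∀ᶠ t in atTop, ∃ j : Fin (n' + 1) × Fin (n' + 1), 0 < N t ∧ j.1 ≠ j.2 ∧
        y t j.1 ≠ 0 ∧ ∃ P Q : ℤ, IsCoprime P Q ∧ Q ≠ 0 ∧ y t j.1 * P = -(y t j.2 * Q) ∧
          c0 * N t / (n' + 1) ≤ Real.log (max |(P : ℝ)| |(Q : ℝ)|) := by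
      filter_upwards [h1, hN.eventually_ge_atTop N1, hN.eventually_gt_atTop 0] with t ht hNt hNp
      have hn1 : (0 : ℝ) < (n' : ℝ) + 1 := by positivity
      have hpow : Real.exp (c0 * N t / (n' + 1)) ^ (n' + 1) = Real.exp (c0 * N t) := by
        rw [← Real.exp_nat_mul]
        congr 1
        push_cast
        field_simp
      obtain ⟨j1, j2, h12, hj1, P, Q, hPQ, hQ, hx, hH⟩ := hhp n' (y t) (hy0 t)
        (Real.exp (c0 * N t / (n' + 1)))
        (Real.one_le_exp (by positivity)) (by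
          intro z hz0 hz
          rw [hpow]
          by_contra hcon
          push Not at hcon
          exact ht ⟨hNt, z, hz0, hz, hcon⟩)
      refine ⟨(j1, j2), hNp, h12, hj1, P, Q, hPQ, hQ, hx, ?_⟩
      rw [← Real.log_exp (c0 * N t / (n' + 1))]
      exact Real.log_le_log (Real.exp_pos _) hH
    have h3 : ∃ᶠ t in atTop, ∃ j ∈ (Finset.univ : Finset (Fin (n' + 1) × Fin (n' + 1))),
        0 < N t ∧ j.1 ≠ j.2 ∧
        y t j.1 ≠ 0 ∧ ∃ P Q : ℤ, IsCoprime P Q ∧ Q ≠ 0 ∧ y t j.1 * P = -(y t j.2 * Q) ∧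
          c0 * N t / (n' + 1) ≤ Real.log (max |(P : ℝ)| |(Q : ℝ)|) :=
      (h2.mono fun t ⟨j, hj⟩ => ⟨j, Finset.mem_univ _, hj⟩).frequently
    obtain ⟨⟨j1, j2⟩, -, hj⟩ := Pool.Agent.TH461.SST.Pen.freq_exists_mem _ _ h3
    obtain ⟨ψ, hψ, hψp⟩ := Filter.extraction_of_frequently_atTop hj
    choose hNp h12 hj1 P Q hPQ hQ hx hH using hψp
    refine hcore n' hn' s M0 M lam hP j1 j2 (h12 0) (max c ((n' + 1) / c0)) γ
      (hc.trans (le_max_left _ _)) hγ (fun t => N (ψ t)) (hN.comp hψ.tendsto_atTop) hNp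
      (fun t => kk (ψ t)) (fun t => B (ψ t)) (fun t => hB (ψ t)) (fun t => A (ψ t))
      (fun t => sizeO_mono (hS (ψ t)) (le_max_left _ _) (hNp t).le)
      (fun t => w (ψ t)) (fun t => hw (ψ t)) (fun t i => hSol (ψ t) i)
      (fun t => y (ψ t)) (fun t i => hyw (ψ t) i) hj1 P Q hPQ hQ hx (fun t => ?_)
    refine le_trans ?_ (hH t)
    have hn1 : (0 : ℝ) < (n' : ℝ) + 1 := by positivity
    have h5 : ((n' : ℝ) + 1) / c0 ≤ max c ((n' + 1) / c0) := le_max_right _ _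
    calc N (ψ t) / max c ((n' + 1) / c0) ≤ N (ψ t) / (((n' : ℝ) + 1) / c0) :=
          div_le_div_of_nonneg_left (hNp t).le (by positivity) h5
      _ = c0 * N (ψ t) / (n' + 1) := by
        field_simp

end Pool.Agent.TH286.GT.PenO
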