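import Mathlib
import Pool.Agent.H9.Lib.R_seed8.TH286.GT.Stms
import Pool.Agent.H9.Lib.R_seed8.TH461.SST.Red

set_option autoImplicit false

open Finset Filter Topology

namespace Pool.Agent.TH286.GT.RedO

open Pool.Agent.TH286.GT
open Pool.Agent.TH461.SST (Big Ix wedge cpd Bal HeightPairStmt CBStmt SFStmt GapStmt CompStmt)
open Pool.Agent.TH461.SST.Red (prod_emb cpd_mul cpd_map cpd_det_ne cpd_diag sum_Ix card_Ix mk_eq
  dual_part)

/-- `φ` does not kill nonzero elements -/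
lemma phi_ne {O : Type} [CommRing O] [IsDomain O] [Module.Finite ℤ O] (φ : O →+* ℂ) {x : O}
    (hx : x ≠ 0) : φ x ≠ 0 := by
  intro h0
  have hint : IsIntegral ℤ x := Algebra.IsIntegral.isIntegral x
  have h1 := Ideal.comap_ne_bot_of_integral_mem (I := RingHom.ker φ) hx
    (RingHom.mem_ker.mpr h0) hint
  apply h1
  rw [eq_bot_iff]
  intro z hz
  rw [Ideal.mem_comap, RingHom.mem_ker] at hz
  have h2 : φ ((algebraMap ℤ O) z) = (z : ℂ) := by
    rw [eq_intCast, map_intCast]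
  rw [h2] at hz
  have h3 : z = 0 := by exact_mod_cast hz
  rw [h3]
  exact Submodule.zero_mem _

lemma phi_det {O : Type} [CommRing O] (φ : O →+* ℂ) {ι : Type} [Fintype ι] [DecidableEq ι]
    (P : Matrix ι ι O) (Pr : Matrix ι ι ℝ) (h : ∀ i j, φ (P i j) = ((Pr i j : ℝ) : ℂ)) :
    φ P.det = ((Pr.det : ℝ) : ℂ) := by
  have h1 := φ.map_det P
  have h2 := Complex.ofRealHom.map_det Pr
  have h3 : Complex.ofRealHom Pr.det = ((Pr.det : ℝ) : ℂ) := rfl
  rw [h1, ← h3, h2]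
  congr 1
  ext i j
  exact h i j

lemma phi_cpd {O : Type} [CommRing O] (φ : O →+* ℂ) {n : ℕ} (k : ℕ)
    (P : Matrix (Fin n) (Fin n) O) (Pr : Matrix (Fin n) (Fin n) ℝ)
    (h : ∀ i j, φ (P i j) = ((Pr i j : ℝ) : ℂ)) (I J : Ix n k) :
    φ (cpd k P I J) = ((cpd k Pr I J : ℝ) : ℂ) := by
  unfold cpd
  exact phi_det φ _ _ (fun i j => h _ _)

lemma phi_vec {O : Type} [CommRing O] (φ : O →+* ℂ) {ι : Type} [Fintype ι]
    (P : Matrix ι ι O) (Pr : Matrix ι ι ℝ) (h : ∀ i j, φ (P i j) = ((Pr i j : ℝ) : ℂ))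
    (x : ι → ℤ) (l : ι) :
    ‖φ (∑ j, P l j * ((x j : ℤ) : O))‖ = |(Pr.mulVec (fun j => (x j : ℝ))) l| := by
  have h1 : φ (∑ j, P l j * ((x j : ℤ) : O)) =
      (((Pr.mulVec (fun j => (x j : ℝ))) l : ℝ) : ℂ) := by
    rw [map_sum]
    change _ = (((∑ j, Pr l j * (x j : ℝ)) : ℝ) : ℂ)
    push_cast
    refine Finset.sum_congr rfl (fun j _ => ?_)
    rw [map_mul, map_intCast, h]
  rw [h1, Complex.norm_real, Real.norm_eq_abs]

/-- an invertible real matrix maps nonzero integer vectors to vectors bounded below -/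
lemma low {ι : Type} [Fintype ι] [DecidableEq ι] (P : Matrix ι ι ℝ) (hP : P.det ≠ 0) :
    ∃ κ : ℝ, 0 < κ ∧ ∀ w : ι → ℤ, w ≠ 0 → ∃ I, κ ≤ |(P.mulVec (fun J => (w J : ℝ))) I| := by
  have hS0 : 0 ≤ ∑ J, ∑ I, |P⁻¹ J I| :=
    Finset.sum_nonneg (fun J _ => Finset.sum_nonneg (fun I _ => abs_nonneg _))
  refine ⟨(1 + ∑ J, ∑ I, |P⁻¹ J I|)⁻¹, by positivity, ?_⟩
  intro w hw
  by_contra hcon
  push Not at hcon
  obtain ⟨J, hJ⟩ := Function.ne_iff.mp hw
  have h1 : (1 : ℝ) ≤ |(w J : ℝ)| := by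
    rw [← Int.cast_abs]
    exact_mod_cast Int.one_le_abs hJ
  have h2 : (P⁻¹).mulVec (P.mulVec (fun J => (w J : ℝ))) = fun J => (w J : ℝ) := by
    rw [Matrix.mulVec_mulVec, Matrix.nonsing_inv_mul P (isUnit_iff_ne_zero.mpr hP),
      Matrix.one_mulVec]
  have h3 : (w J : ℝ) = ∑ I, P⁻¹ J I * (P.mulVec (fun J => (w J : ℝ))) I :=
    (congrFun h2 J).symm
  have h4 : |(w J : ℝ)| ≤ ∑ I, |P⁻¹ J I| * (1 + ∑ J, ∑ I, |P⁻¹ J I|)⁻¹ := by
    rw [h3]
    refine (Finset.abs_sum_le_sum_abs _ _).trans (Finset.sum_le_sum (fun I _ => ?_))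
    rw [abs_mul]
    exact mul_le_mul_of_nonneg_left (hcon I).le (abs_nonneg _)
  rw [← Finset.sum_mul] at h4
  have h5 : ∑ I, |P⁻¹ J I| ≤ ∑ J, ∑ I, |P⁻¹ J I| :=
    Finset.single_le_sum (f := fun J => ∑ I, |P⁻¹ J I|)
      (fun J _ => Finset.sum_nonneg (fun I _ => abs_nonneg _)) (Finset.mem_univ J)
  have h6 : (∑ I, |P⁻¹ J I|) * (1 + ∑ J, ∑ I, |P⁻¹ J I|)⁻¹ < 1 := by
    rw [← div_eq_mul_inv, div_lt_one (by positivity)]
    linarith
  linarith

lemma log_cpd (hsf : SFStmt) {n k : ℕ} (hk : 1 ≤ k) (hkn : k ≤ n)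
    (B : Matrix (Fin n) (Fin n) ℤ) (hB : B.det ≠ 0) :
    Real.log |((cpd k B).det : ℝ)| =
      (((n - 1).choose (k - 1) : ℕ) : ℝ) * Real.log |(B.det : ℝ)| := by
  have h1 : (B.map (Int.cast : ℤ → ℝ)).det = (B.det : ℝ) := by
    have := (Int.castRingHom ℝ).map_det B
    rw [eq_intCast] at this
    rw [this]
    congr 1
  have h2 : (B.map (Int.cast : ℤ → ℝ)).det ≠ 0 := by
    rw [h1]; exact_mod_cast hB
  have h3 := hsf n k hk hkn _ h2
  rw [cpd_map] at h3
  have h4 : ((cpd k B).map (Int.cast : ℤ → ℝ)).det = ((cpd k B).det : ℝ) := by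
    have := (Int.castRingHom ℝ).map_det (cpd k B)
    rw [eq_intCast] at this
    rw [this]
    congr 1
  rw [h4, h1] at h3
  rw [h3, abs_pow, Real.log_pow]

lemma cpdL {n : ℕ} (k : ℕ) (ρ : ℝ) (A : Fin n → ℝ) (Q : Matrix (Fin n) (Fin n) ℝ)
    (v : Ix n k → ℝ) (I : Ix n k) :
    ((cpd k (Matrix.of fun i j => (ρ⁻¹ * (A i)⁻¹) * Q i j)).mulVec v) I =
    (ρ ^ k * ∏ l ∈ I.1, A l)⁻¹ * ((cpd k Q).mulVec v) I := by
  change ∑ J : Ix n k, (cpd k (Matrix.of fun i j => (ρ⁻¹ * (A i)⁻¹) * Q i j)) I J * v J =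
    (ρ ^ k * ∏ l ∈ I.1, A l)⁻¹ * ∑ J : Ix n k, cpd k Q I J * v J
  rw [Finset.mul_sum]
  refine Finset.sum_congr rfl (fun J _ => ?_)
  rw [cpd_diag, Finset.prod_mul_distrib, Finset.prod_const, I.2,
    Finset.prod_inv_distrib, mul_inv, inv_pow]
  ring

lemma cpdQ (hcb : CBStmt) {n : ℕ} (k : ℕ) (M : Matrix (Fin n) (Fin n) ℝ)
    (B : Matrix (Fin n) (Fin n) ℤ) (w : Ix n k → ℤ) :
    (cpd k (M * B.map (Int.cast : ℤ → ℝ))).mulVec (fun J => (w J : ℝ)) =
      (cpd k M).mulVec (fun J => (((cpd k B).mulVec w J : ℤ) : ℝ)) := by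
  rw [cpd_mul hcb, ← Matrix.mulVec_mulVec, cpd_map]
  congr 1
  ext J
  change ∑ K, (((cpd k B) J K : ℤ) : ℝ) * (w K : ℝ) = ((∑ K, cpd k B J K * w K : ℤ) : ℝ)
  push_cast
  rfl

lemma size_part (hsf : SFStmt) {n k : ℕ} (hk : 1 ≤ k) (hkn : k < n) (c γ N : ℝ)
    (hc : 1 ≤ c) (hN : 1 ≤ N) (B : Matrix (Fin n) (Fin n) ℤ) (hB : B.det ≠ 0)
    (A : Fin n → ℝ) (hS : SizeO c γ N B A)
    (lr D0 K : ℝ) (hK : 0 ≤ K)
    (hlr : n * lr = D0 + Real.log |(B.det : ℝ)| - ∑ l, Real.log (A l)) (hlr0 : 0 ≤ lr)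
    (Ac : Ix n k → ℝ) (hAc : ∀ I, Real.exp (-(K + k * lr + k * (c * N))) ≤ Ac I) (C lg : ℝ)
    (hC : 1 ≤ C) (hprod : ∏ I, Ac I ≤ C / Real.exp lg) (hlg0 : Real.log C ≤ lg) (γ' : ℝ)
    (hlg : 2 ^ n * |D0| + Real.log C + γ' * N ≤ lg) :
    SizeO ((2 ^ n + 1) * n * (K + |D0| + 3 * c)) γ' N (cpd k B)
      (fun I => Real.exp (k * lr) * (∏ l ∈ I.1, A l) * Ac I) := by
  obtain ⟨hS1, hS2, hS3, hS4⟩ := hS
  have hn : 0 < n := by omega
  have hnR : (1 : ℝ) ≤ n := by exact_mod_cast hn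
  have hknR : (k : ℝ) ≤ n := by exact_mod_cast hkn.le
  have hkR : (1 : ℝ) ≤ k := by exact_mod_cast hk
  have h2n : (1 : ℝ) ≤ 2 ^ n := one_le_pow₀ (by norm_num)
  have hcN : 0 < c * N := by positivity
  have hD0' : 0 ≤ |D0| := abs_nonneg _
  have hDD : D0 ≤ |D0| := le_abs_self _
  set D : ℝ := Real.log |(B.det : ℝ)| with hD
  have hDn : 0 ≤ D := by
    apply Real.log_nonneg
    rw [← Int.cast_abs]
    exact_mod_cast Int.one_le_abs hB
  -- bound for lr
  have hα : -∑ l, Real.log (A l) ≤ n * (c * N) := by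
    rw [← Finset.sum_neg_distrib]
    have : ∑ l, -Real.log (A l) ≤ ∑ l : Fin n, c * N :=
      Finset.sum_le_sum (fun l _ => (neg_le_abs _).trans (hS3 l))
    refine this.trans ?_
    simp
  have hlr1 : lr ≤ (|D0| + 2 * c) * N := by
    have h1 : (n : ℝ) * lr ≤ n * ((|D0| + 2 * c) * N) := by
      rw [hlr]
      have h2 : |D0| ≤ n * (|D0| * N) := by
        have : |D0| * 1 ≤ |D0| * N := mul_le_mul_of_nonneg_left hN hD0'
        have h3 : 1 * (|D0| * N) ≤ n * (|D0| * N) :=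
          mul_le_mul_of_nonneg_right hnR (by positivity)
        linarith
      have h4 : c * N ≤ n * (c * N) := by nlinarith
      calc D0 + D - ∑ l, Real.log (A l) ≤ n * (|D0| * N) + n * (c * N) + n * (c * N) := by
            linarith
        _ = n * ((|D0| + 2 * c) * N) := by ring
    exact le_of_mul_le_mul_left h1 (by linarith)
  set E : ℝ := (K + |D0| + 3 * c) * N with hE
  have hKN : K ≤ K * N := by nlinarith
  have hlrE : K + lr + c * N ≤ E := by
    rw [hE]; nlinarith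
  have hE0 : 0 ≤ E := by linarith
  have hcE : ((2 ^ n + 1) * n * (K + |D0| + 3 * c)) * N = (2 ^ n + 1) * n * E := by
    rw [hE]; ring
  have hAcpos : ∀ I, 0 < Ac I := fun I => (Real.exp_pos _).trans_le (hAc I)
  have hAlow : ∀ I, -(K + k * lr + k * (c * N)) ≤ Real.log (Ac I) := by
    intro I
    rw [Real.le_log_iff_exp_le (hAcpos I)]
    exact hAc I
  set F : ℝ := K + k * lr + k * (c * N) with hF
  have hF0 : 0 ≤ F := by
    rw [hF]; positivity
  have hFE : F ≤ n * E := by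
    have h1 : F ≤ k * (K + lr + c * N) := by
      rw [hF]; nlinarith
    refine h1.trans ?_
    exact mul_le_mul hknR hlrE (by positivity) (by positivity)
  have hsumlog : ∑ I, Real.log (Ac I) ≤ Real.log C - lg := by
    rw [← Real.log_prod (fun I _ => (hAcpos I).ne')]
    refine (Real.log_le_log (Finset.prod_pos (fun I _ => hAcpos I)) hprod).trans ?_
    rw [Real.log_div (by linarith) (Real.exp_pos _).ne', Real.log_exp]
  have hM2 : ((n.choose k : ℕ) : ℝ) ≤ 2 ^ n := by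
    exact_mod_cast Nat.choose_le_two_pow n k
  have hAup : ∀ I, Real.log (Ac I) ≤ 2 ^ n * F := by
    intro I
    have h1 : Real.log (Ac I) + ∑ J ∈ univ.erase I, Real.log (Ac J) ≤ 0 := by
      rw [Finset.add_sum_erase univ (fun J => Real.log (Ac J)) (Finset.mem_univ I)]
      linarith
    have h2 : ∑ J ∈ univ.erase I, (-F) ≤ ∑ J ∈ univ.erase I, Real.log (Ac J) :=
      Finset.sum_le_sum (fun J _ => hAlow J)
    rw [Finset.sum_const, nsmul_eq_mul] at h2
    have h3 : (((univ.erase I : Finset (Ix n k)).card : ℕ) : ℝ) ≤ 2 ^ n := by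
      refine le_trans ?_ hM2
      have : (univ.erase I : Finset (Ix n k)).card ≤ (univ : Finset (Ix n k)).card :=
        Finset.card_le_card (Finset.erase_subset _ _)
      rw [Finset.card_univ, card_Ix] at this
      exact_mod_cast this
    nlinarith
  have hlogA' : ∀ I : Ix n k, Real.log (Real.exp (k * lr) * (∏ l ∈ I.1, A l) * Ac I) =
      k * lr + ∑ l ∈ I.1, Real.log (A l) + Real.log (Ac I) := by
    intro I
    have h1 : (∏ l ∈ I.1, A l) ≠ 0 := Finset.prod_ne_zero_iff.mpr (fun l _ => (hS2 l).ne')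
    rw [Real.log_mul (mul_ne_zero (Real.exp_pos _).ne' h1) (hAcpos I).ne',
      Real.log_mul (Real.exp_pos _).ne' h1, Real.log_exp, Real.log_prod (fun l _ => (hS2 l).ne')]
  have hsumA : ∀ I : Ix n k, |∑ l ∈ I.1, Real.log (A l)| ≤ k * (c * N) := by
    intro I
    refine (Finset.abs_sum_le_sum_abs _ _).trans ?_
    refine (Finset.sum_le_sum (fun l _ => hS3 l)).trans ?_
    rw [Finset.sum_const, I.2, nsmul_eq_mul]
  have hg10 : (0 : ℝ) ≤ (((n - 1).choose (k - 1) : ℕ) : ℝ) := by positivity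
  have hg12 : (((n - 1).choose (k - 1) : ℕ) : ℝ) ≤ 2 ^ n := by
    have h1 : ((n - 1).choose (k - 1)) ≤ 2 ^ (n - 1) := Nat.choose_le_two_pow _ _
    have h2 : 2 ^ (n - 1) ≤ 2 ^ n := Nat.pow_le_pow_right (by norm_num) (by omega)
    exact_mod_cast h1.trans h2
  refine ⟨?_, fun I => ?_, fun I => ?_, ?_⟩
  · rw [hcE, log_cpd hsf hk hkn.le B hB, ← hD]
    have h1 : (((n - 1).choose (k - 1) : ℕ) : ℝ) * D ≤ 2 ^ n * (c * N) :=
      mul_le_mul hg12 hS1 hDn (by positivity)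
    have h2 : c * N ≤ E := by
      have : 0 ≤ K + lr := by linarith
      linarith
    have h3 : 2 ^ n * (c * N) ≤ 2 ^ n * E := mul_le_mul_of_nonneg_left h2 (by positivity)
    have h4 : 2 ^ n * E ≤ (2 ^ n + 1) * E := by nlinarith
    have h5 : (2 ^ n + 1) * E ≤ (2 ^ n + 1) * n * E := by
      have h6 : 0 ≤ (2 ^ n + 1) * E := by positivity
      nlinarith
    linarith
  · have h1 : 0 < (∏ l ∈ I.1, A l) := Finset.prod_pos (fun l _ => hS2 l)
    have := hAcpos I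
    positivity
  · rw [hcE, hlogA' I]
    have h1 := abs_le.mp (hsumA I)
    have h2 := hAlow I
    have h3 := hAup I
    have h4 : F + 2 ^ n * F ≤ (2 ^ n + 1) * n * E := by
      have : (2 ^ n + 1) * F ≤ (2 ^ n + 1) * (n * E) :=
        mul_le_mul_of_nonneg_left hFE (by positivity)
      linarith
    have h5 : 0 ≤ (k : ℝ) * lr := by positivity
    have h6 : F ≤ 2 ^ n * F := by nlinarith
    rw [abs_le]
    constructor
    · linarith
    · linarith
  · have e1 : ∑ I : Ix n k, Real.log (Real.exp (k * lr) * (∏ l ∈ I.1, A l) * Ac I) =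
        ((n.choose k : ℕ) : ℝ) * k * lr +
        (((n - 1).choose (k - 1) : ℕ) : ℝ) * ∑ l, Real.log (A l) + ∑ I, Real.log (Ac I) := by
      rw [Finset.sum_congr rfl (fun I _ => hlogA' I), Finset.sum_add_distrib,
        Finset.sum_add_distrib, Finset.sum_const, Finset.card_univ, card_Ix, nsmul_eq_mul,
        sum_Ix hk]
      ring
    rw [e1, mk_eq hk, log_cpd hsf hk hkn.le B hB, ← hD]
    set g1 : ℝ := (((n - 1).choose (k - 1) : ℕ) : ℝ) with hg1
    have e3 : g1 * n * lr = g1 * D0 + g1 * D - g1 * ∑ l, Real.log (A l) := by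
      rw [mul_assoc, hlr]; ring
    have e4 : g1 * D0 ≤ g1 * |D0| := mul_le_mul_of_nonneg_left hDD hg10
    have e5 : g1 * |D0| ≤ 2 ^ n * |D0| := mul_le_mul_of_nonneg_right hg12 hD0'
    rw [e3]
    linarith

theorem redO (O : Type) [CommRing O] [IsDomain O] [Module.Free ℤ O] [Module.Finite ℤ O] (φ : O →+* ℂ)
    (hcb : CBStmt) (hsf : SFStmt) (hgap : GapStmt) (hcomp : CompStmt) : RedOStmt O φ := by
  classical
  intro n hn M0 hM0 him c γ hc hγ
  obtain ⟨C0, hC0, hgap'⟩ := hgap n hn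
  have hcomp' := fun (k : ℕ) (h1 : 1 ≤ k) (h2 : k < n) => hcomp n k h1 h2 C0 hC0
  choose Cf hCf1 hCf using hcomp'
  obtain ⟨C1, hC11, hC1⟩ : ∃ C1 : ℝ, 1 ≤ C1 ∧
      ∀ k (h1 : 1 ≤ k) (h2 : k < n), Cf k h1 h2 ≤ C1 := by
    have hnn : ∀ k ∈ range n, 0 ≤ (if h : 1 ≤ k ∧ k < n then Cf k h.1 h.2 else 0 : ℝ) := by
      intro k _
      split_ifs with h
      · have := hCf1 k h.1 h.2
        linarith
      · exact le_rfl
    refine ⟨1 + ∑ k ∈ range n, (if h : 1 ≤ k ∧ k < n then Cf k h.1 h.2 else 0), ?_, ?_⟩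
    · have := Finset.sum_nonneg hnn
      linarith
    · intro k h1 h2
      have := Finset.single_le_sum hnn (Finset.mem_range.mpr h2)
      rw [dif_pos ⟨h1, h2⟩] at this
      linarith
  have hn1 : (1 : ℝ) ≤ n := by exact_mod_cast (by omega : 1 ≤ n)
  have hn0 : (0 : ℝ) < n := by linarith
  -- the real matrix
  set Mr : Matrix (Fin n) (Fin n) ℝ := Matrix.of fun i j => (φ (M0 i j)).re with hMr
  have hphi : ∀ i j, φ (M0 i j) = ((Mr i j : ℝ) : ℂ) := by
    intro i j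
    rw [hMr, Matrix.of_apply]
    apply Complex.ext
    · rw [Complex.ofReal_re]
    · rw [Complex.ofReal_im, him i j]
  have hMr0 : Mr.det ≠ 0 := by
    intro h0
    have h1 := phi_det φ M0 Mr hphi
    rw [h0] at h1
    exact phi_ne φ hM0 (by rw [h1]; simp)
  -- the constant `K`
  have hlow : ∀ (k : ℕ) (h1 : 1 ≤ k) (h2 : k < n), ∃ κ : ℝ, 0 < κ ∧
      ∀ w : Ix n k → ℤ, w ≠ 0 → ∃ I, κ ≤ |((cpd k Mr).mulVec (fun J => (w J : ℝ))) I| := by
    intro k h1 h2
    apply low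
    rw [hsf n k h1 h2.le Mr hMr0]
    exact pow_ne_zero _ hMr0
  choose κf hκf1 hκf using hlow
  obtain ⟨K, hK0, hK⟩ : ∃ K : ℝ, 0 ≤ K ∧
      ∀ k (h1 : 1 ≤ k) (h2 : k < n), Real.exp (-K) ≤ κf k h1 h2 := by
    have hnn : ∀ k ∈ range n,
        0 ≤ (if h : 1 ≤ k ∧ k < n then |Real.log (κf k h.1 h.2)| else 0 : ℝ) := by
      intro k _
      split_ifs with h
      · exact abs_nonneg _
      · exact le_rfl
    refine ⟨∑ k ∈ range n, (if h : 1 ≤ k ∧ k < n then |Real.log (κf k h.1 h.2)| else 0),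
      Finset.sum_nonneg hnn, ?_⟩
    intro k h1 h2
    have := Finset.single_le_sum hnn (Finset.mem_range.mpr h2)
    rw [dif_pos ⟨h1, h2⟩] at this
    rw [← Real.le_log_iff_exp_le (hκf1 k h1 h2)]
    have h3 := neg_abs_le (Real.log (κf k h1 h2))
    linarith
  set D0 : ℝ := Real.log |Mr.det| with hD0def
  have hD0 : 0 ≤ |D0| := abs_nonneg _
  have hlC0 : 0 ≤ Real.log C0 := Real.log_nonneg hC0
  have hlC1 : 0 ≤ Real.log C1 := Real.log_nonneg hC11
  refine ⟨(2 ^ n + 1) * n * (K + |D0| + 3 * c), γ / (4 * n ^ 2),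
    1 + (2 * |D0| + 2 * n * Real.log C0) / γ + 2 * n ^ 2 * (Real.log C1 + 1) / γ +
      4 * n ^ 2 * (2 ^ n * |D0| + Real.log C1) / γ, ?_, by positivity, ?_⟩
  · have h1 : (1 : ℝ) ≤ 2 ^ n + 1 := by
      have : (0 : ℝ) ≤ 2 ^ n := by positivity
      linarith
    have h2 : (1 : ℝ) ≤ K + |D0| + 3 * c := by nlinarith
    have h3 : (1 : ℝ) ≤ (2 ^ n + 1) * n := by nlinarith
    nlinarith
  intro N hN B hB0 A hS x hx hSol
  have hq1 : 0 ≤ (2 * |D0| + 2 * n * Real.log C0) / γ := by positivity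
  have hq2 : 0 ≤ 2 * n ^ 2 * (Real.log C1 + 1) / γ := by positivity
  have hq3 : 0 ≤ 4 * n ^ 2 * (2 ^ n * |D0| + Real.log C1) / γ := by positivity
  have hN1 : 1 ≤ N := by linarith
  have hNa : 2 * |D0| + 2 * n * Real.log C0 ≤ γ * N := by
    have : (2 * |D0| + 2 * n * Real.log C0) / γ ≤ N := by linarith
    rw [div_le_iff₀ hγ] at this
    linarith
  have hNb : 2 * n ^ 2 * (Real.log C1 + 1) ≤ γ * N := by
    have : 2 * n ^ 2 * (Real.log C1 + 1) / γ ≤ N := by linarith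
    rw [div_le_iff₀ hγ] at this
    linarith
  have hNc : 4 * n ^ 2 * (2 ^ n * |D0| + Real.log C1) ≤ γ * N := by
    have : 4 * n ^ 2 * (2 ^ n * |D0| + Real.log C1) / γ ≤ N := by linarith
    rw [div_le_iff₀ hγ] at this
    linarith
  obtain ⟨x0, hx0⟩ := hSol.2
  have hx00 : x0 ≠ 0 := by
    rintro rfl
    apply hx
    rw [hx0, Matrix.mulVec_zero]
  have hB0R : (B.det : ℝ) ≠ 0 := by exact_mod_cast hB0
  set D : ℝ := Real.log |(B.det : ℝ)| with hDdef
  set Br : Matrix (Fin n) (Fin n) ℝ := B.map (Int.cast : ℤ → ℝ) with hBr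
  have hBrdet : Br.det = (B.det : ℝ) := by
    have := (Int.castRingHom ℝ).map_det B
    rw [eq_intCast] at this
    rw [this]
    congr 1
  set Q : Matrix (Fin n) (Fin n) ℝ := Mr * Br with hQ
  have hQdet : Q.det = Mr.det * B.det := by
    rw [hQ, Matrix.det_mul, hBrdet]
  set lr : ℝ := (D0 + D - ∑ l, Real.log (A l)) / n with hlrdef
  have hlr : n * lr = D0 + D - ∑ l, Real.log (A l) := by
    rw [hlrdef]; field_simp
  have hA0 : ∀ l, 0 < A l := hS.2.1
  have hS4 := hS.2.2.2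
  have hDneg : -|D0| ≤ D0 := neg_abs_le D0
  have hlrlow : γ * N / (2 * n) + Real.log C0 ≤ lr := by
    rw [hlrdef, le_div_iff₀ hn0]
    have : (γ * N / (2 * n) + Real.log C0) * n = γ * N / 2 + n * Real.log C0 := by
      field_simp
    rw [this]
    linarith
  have hlr0 : 0 ≤ lr := by
    have : 0 ≤ γ * N / (2 * n) := by positivity
    linarith
  set ρ : ℝ := Real.exp lr with hρ
  have hρ0 : 0 < ρ := Real.exp_pos _
  set L : Matrix (Fin n) (Fin n) ℝ :=
    Matrix.of fun i j => (ρ⁻¹ * (A i)⁻¹) * Q i j with hL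
  have hdet : |L.det| = 1 := by
    have h1 : L.det = (∏ i, (ρ⁻¹ * (A i)⁻¹)) * Q.det := by
      rw [hL, Matrix.det_mul_column]
    have h3 : ∏ i, (ρ⁻¹ * (A i)⁻¹) = (Real.exp (n * lr + ∑ l, Real.log (A l)))⁻¹ := by
      rw [Finset.prod_mul_distrib, Finset.prod_const, Finset.card_univ, Fintype.card_fin,
        Finset.prod_inv_distrib, inv_pow, Real.exp_add, Real.exp_sum, mul_inv]
      congr 2
      · rw [hρ, ← Real.exp_nat_mul]
      · refine Finset.prod_congr rfl (fun l _ => ?_)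
        rw [Real.exp_log (hA0 l)]
    have h4 : |Q.det| = Real.exp (D0 + D) := by
      rw [hQdet, abs_mul, Real.exp_add, hD0def, hDdef, Real.exp_log (abs_pos.mpr hMr0),
        Real.exp_log (abs_pos.mpr hB0R)]
    have h5 : n * lr + ∑ l, Real.log (A l) = D0 + D := by
      rw [hlr]; ring
    rw [h1, abs_mul, h4, h3, h5, abs_inv, abs_of_pos (Real.exp_pos _)]
    exact inv_mul_cancel₀ (Real.exp_pos _).ne'
  set lg : ℝ := γ * N / (2 * n ^ 2) with hlg
  have hlg0 : Real.log C1 + 1 ≤ lg := by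
    rw [hlg, le_div_iff₀ (by positivity)]
    linarith
  have hlgn : n * lg = γ * N / (2 * n) := by
    rw [hlg]; field_simp
  set g : ℝ := Real.exp lg with hg
  have hg1 : 1 ≤ g := by
    rw [hg]
    exact Real.one_le_exp (by linarith)
  have hC1g : C1 < g := by
    rw [hg, ← Real.log_lt_iff_lt_exp (by linarith)]
    linarith
  have hcond : ∀ l, C0 * g ^ n * |(L.mulVec (fun i => (x0 i : ℝ))) l| ≤ 1 := by
    intro l
    have h1 : (L.mulVec (fun i => (x0 i : ℝ))) l =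
        (ρ⁻¹ * (A l)⁻¹) * (Mr.mulVec (fun j => (x j : ℝ))) l := by
      have h2 : Mr.mulVec (fun j => (x j : ℝ)) = Q.mulVec (fun j => (x0 j : ℝ)) := by
        rw [hQ, ← Matrix.mulVec_mulVec]
        congr 1
        ext j
        rw [hx0]
        change ((∑ i, B j i * x0 i : ℤ) : ℝ) = ∑ i, ((B j i : ℤ) : ℝ) * (x0 i : ℝ)
        push_cast
        rfl
      rw [h2]
      change ∑ j, L l j * (x0 j : ℝ) = _ * ∑ j, Q l j * (x0 j : ℝ)
      rw [Finset.mul_sum]
      refine Finset.sum_congr rfl (fun j _ => ?_)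
      rw [hL, Matrix.of_apply]
      ring
    have h2 : |(L.mulVec (fun i => (x0 i : ℝ))) l| ≤ ρ⁻¹ := by
      rw [h1, abs_mul, abs_of_pos (mul_pos (inv_pos.mpr hρ0) (inv_pos.mpr (hA0 l)))]
      have h3 := hSol.1 l
      rw [phi_vec φ M0 Mr hphi] at h3
      calc ρ⁻¹ * (A l)⁻¹ * |(Mr.mulVec (fun j => (x j : ℝ))) l| ≤ ρ⁻¹ * (A l)⁻¹ * A l :=
            mul_le_mul_of_nonneg_left h3
              (mul_pos (inv_pos.mpr hρ0) (inv_pos.mpr (hA0 l))).le
        _ = ρ⁻¹ := by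
            rw [mul_assoc, inv_mul_cancel₀ (hA0 l).ne', mul_one]
    have h3 : C0 * g ^ n * ρ⁻¹ ≤ 1 := by
      have h4 : C0 = Real.exp (Real.log C0) := (Real.exp_log (by linarith)).symm
      rw [h4, hg, ← Real.exp_nat_mul, hρ, ← Real.exp_neg, ← Real.exp_add, ← Real.exp_add,
        Real.exp_le_one_iff]
      linarith
    calc C0 * g ^ n * |(L.mulVec (fun i => (x0 i : ℝ))) l| ≤ C0 * g ^ n * ρ⁻¹ := by
          apply mul_le_mul_of_nonneg_left h2
          have : 0 ≤ g := by linarith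
          positivity
      _ ≤ 1 := h3
  have hLu : IsUnit L.det := by
    rw [isUnit_iff_ne_zero]
    intro h0
    rw [h0] at hdet
    simp at hdet
  obtain ⟨r, hr1, hrn, G, lam, hG, hlam0, hlamm, hGl, hlamC, hgapl, hGx⟩ :=
    hgap' L (L⁻¹).transpose hdet (by
      rw [Matrix.transpose_transpose]
      exact Matrix.nonsing_inv_mul L hLu) x0 hx00 g hg1 hcond
  obtain ⟨k, hk⟩ : ∃ k, k = n - r := ⟨_, rfl⟩
  have hk1 : 1 ≤ k := by omega
  have hkn : k < n := by omega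
  have hnk : n - k = r := by omega
  have hexpA : ∀ l, A l ≤ Real.exp (c * N) := by
    intro l
    rw [← Real.log_le_iff_le_exp (hA0 l)]
    exact (le_abs_self _).trans (hS.2.2.1 l)
  obtain ⟨Ac, y, w, hAc, hprod, hy, hw, hyw, hwA, hlast⟩ :=
    hCf k hk1 hkn L hdet G lam hG hlam0 hlamm hGl hlamC g
      (lt_of_le_of_lt (hC1 k hk1 hkn) hC1g) (by
        intro i j hi hj
        rw [hnk] at hi hj
        exact hgapl i j hi hj)
      (Real.exp (-(K + k * lr + k * (c * N)))) (Real.exp_pos _) (by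
        intro w hw
        have h1 : (cpd k B).mulVec w ≠ 0 := fun h =>
          hw (Matrix.eq_zero_of_mulVec_eq_zero (cpd_det_ne hsf hk1 hkn.le B hB0) h)
        obtain ⟨I, hI⟩ := hκf k hk1 hkn _ h1
        refine ⟨I, ?_⟩
        rw [hL, cpdL, abs_mul, hQ, hBr, cpdQ hcb]
        have h2 : Real.exp (-K) ≤
            |((cpd k Mr).mulVec (fun J => (((cpd k B).mulVec w J : ℤ) : ℝ))) I| :=
          (hK k hk1 hkn).trans hI
        have hprodA : 0 < ∏ l ∈ I.1, A l := Finset.prod_pos (fun l _ => hA0 l)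
        have h3 : Real.exp (-(k * lr + k * (c * N))) ≤ |(ρ ^ k * ∏ l ∈ I.1, A l)⁻¹| := by
          rw [abs_of_pos (by positivity), Real.exp_neg]
          apply inv_anti₀ (by positivity)
          rw [Real.exp_add]
          apply mul_le_mul
          · rw [hρ, ← Real.exp_nat_mul]
          · calc ∏ l ∈ I.1, A l ≤ ∏ l ∈ I.1, Real.exp (c * N) :=
                  Finset.prod_le_prod (fun l _ => (hA0 l).le) (fun l _ => hexpA l)
              _ = Real.exp (k * (c * N)) := by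
                  rw [Finset.prod_const, I.2, ← Real.exp_nat_mul]
          · exact hprodA.le
          · exact (Real.exp_pos _).le
        calc Real.exp (-(K + k * lr + k * (c * N))) =
            Real.exp (-(k * lr + k * (c * N))) * Real.exp (-K) := by
              rw [← Real.exp_add]
              congr 1
              ring
          _ ≤ _ := mul_le_mul h3 h2 (Real.exp_pos _).le (abs_nonneg _))
  have hdual := dual_part hcb hsf hk1 hkn.le B hB0 y hy w hw hyw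
  refine ⟨k, hk1, hkn,
    fun I => Real.exp (k * lr) * (∏ l ∈ I.1, A l) * Ac I, fun i => (cpd k B).mulVec (w i),
    (cpd k B).adjugate.transpose.mulVec y, ?_, hdual.2.1, ?_, hdual.1, hdual.2.2.1, ?_⟩
  · have hCk1 := hCf1 k hk1 hkn
    have hCkC1 := hC1 k hk1 hkn
    have hlogk : Real.log (Cf k hk1 hkn) ≤ Real.log C1 :=
      Real.log_le_log (by linarith) hCkC1
    refine size_part hsf hk1 hkn c γ N hc hN1 B hB0 A hS lr D0 K hK0 hlr hlr0 Ac hAc
      (Cf k hk1 hkn) lg hCk1 hprod (by linarith) _ ?_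
    have h1 : 2 ^ n * |D0| + Real.log C1 ≤ γ * N / (4 * n ^ 2) := by
      rw [le_div_iff₀ (by positivity)]
      linarith
    have h2 : γ / (4 * n ^ 2) * N = γ * N / (4 * n ^ 2) := by ring
    have h3 : lg = γ * N / (4 * n ^ 2) + γ * N / (4 * n ^ 2) := by
      rw [hlg]; field_simp; norm_num
    rw [h2, h3]
    linarith
  · intro i
    refine ⟨fun I => ?_, ⟨w i, rfl⟩⟩
    rw [phi_vec φ (cpd k M0) (cpd k Mr) (phi_cpd φ k M0 Mr hphi)]
    have h1 := hwA i I
    have hprodA : 0 < ∏ l ∈ I.1, A l := Finset.prod_pos (fun l _ => hA0 l)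
    rw [hL, cpdL, abs_mul, abs_of_pos (by positivity), hQ, hBr, cpdQ hcb] at h1
    rw [inv_mul_le_iff₀ (by positivity)] at h1
    rw [hρ, ← Real.exp_nat_mul] at h1
    exact h1
  · rintro V ⟨c0, hc0⟩
    apply hdual.2.2.2 V
    apply hlast _ c0
    intro i hi
    rw [hnk] at hi
    have h1 : (fun l => (B.adjugate * V) l c0) = B.det • x0 := by
      have h2 : B.adjugate.mulVec x = B.det • x0 := by
        rw [hx0, Matrix.mulVec_mulVec, Matrix.adjugate_mul, Matrix.smul_mulVec, Matrix.one_mulVec]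
      rw [← h2]
      ext l
      rw [Matrix.mul_apply]
      change _ = ∑ j, B.adjugate l j * x j
      refine Finset.sum_congr rfl (fun j _ => ?_)
      rw [hc0 j]
    rw [h1, Matrix.det_updateRow_smul, hGx i hi, mul_zero]

end Pool.Agent.TH286.GT.RedO
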