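import Mathlib
import Pool.Agent.H9.Lib.R_seed8.TH286.GT.Stms
import Pool.Agent.H9.Lib.R_seed8.TH461.SST.Sub

/-!
# The subspace theorem for the lattices `B_t ℤ^n` (assembly)
-/

set_option autoImplicit false

open Finset Filter Topology

namespace Pool.Agent.TH286.GT.SubO

open Pool.Agent.TH286.GT
open Pool.Agent.TH461.SST (Big Ix wedge cpd Bal HeightPairStmt CBStmt SFStmt GapStmt CompStmt)
open Pool.Agent.TH461.SST.Sub (proportional cpd_det_ne EE wedge_EE_self wedge_EE_ne Phi Phi_apply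
  Phi_unit frequently_fin)

/-! ### The ring -/

lemma phi_ne {O : Type} [CommRing O] [IsDomain O] [Module.Finite ℤ O] (φ : O →+* ℂ)
    {x : O} (hx : x ≠ 0) : φ x ≠ 0 := by
  intro h0
  have h1 : x ∈ RingHom.ker φ := h0
  have h2 := Ideal.comap_ne_bot_of_integral_mem (R := ℤ) hx h1 (Algebra.IsIntegral.isIntegral x)
  apply h2
  rw [eq_bot_iff]
  intro z hz
  rw [Ideal.mem_comap, RingHom.mem_ker] at hz
  rw [eq_intCast, map_intCast] at hz
  have h3 : z = 0 := by exact_mod_cast hz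
  rw [h3]
  exact Submodule.zero_mem _

/-! ### Compound matrices -/

lemma cpdO_mul (hcb : CBStmt) {R : Type} [CommRing R] {n k : ℕ}
    (S T : Matrix (Fin n) (Fin n) R) : cpd k (S * T) = cpd k S * cpd k T := by
  ext I J
  have h1 := congrFun (hcb R n k S (T.submatrix id (J.1.orderEmbOfFin J.2))) I
  have h2 : S * T.submatrix id (J.1.orderEmbOfFin J.2) =
      (S * T).submatrix id (J.1.orderEmbOfFin J.2) := by
    ext i j
    simp [Matrix.mul_apply, Matrix.submatrix_apply]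
  rw [h2] at h1
  have h3 : wedge ((S * T).submatrix id (J.1.orderEmbOfFin J.2)) I = cpd k (S * T) I J := rfl
  rw [h3] at h1
  refine h1.trans ?_
  rw [Matrix.mul_apply]
  rfl

lemma cpdO_diagonal {R : Type} [CommRing R] {n k : ℕ} (d : Fin n → R) :
    cpd k (Matrix.diagonal d) = Matrix.diagonal (fun I : Ix n k => ∏ i ∈ I.1, d i) := by
  classical
  ext I J
  by_cases h : I = J
  · subst h
    rw [Matrix.diagonal_apply_eq]
    unfold cpd
    have h1 : (Matrix.diagonal d).submatrix (I.1.orderEmbOfFin I.2) (I.1.orderEmbOfFin I.2) =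
        Matrix.diagonal (fun a : Fin k => d (I.1.orderEmbOfFin I.2 a)) := by
      exact Matrix.submatrix_diagonal d _ (I.1.orderEmbOfFin I.2).injective
    rw [h1, Matrix.det_diagonal]
    have h2 : I.1 = Finset.univ.image (fun a : Fin k => I.1.orderEmbOfFin I.2 a) := by
      ext x
      simp only [Finset.mem_image, Finset.mem_univ, true_and]
      constructor
      · intro hx
        refine ⟨(I.1.orderIsoOfFin I.2).symm ⟨x, hx⟩, ?_⟩
        rw [← Finset.coe_orderIsoOfFin_apply]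
        simp
      · rintro ⟨a, rfl⟩
        exact Finset.orderEmbOfFin_mem _ _ _
    conv_rhs => rw [h2]
    rw [Finset.prod_image]
    intro a _ b _ hab
    exact (I.1.orderEmbOfFin I.2).injective hab
  · rw [Matrix.diagonal_apply_ne _ h]
    obtain ⟨i, hi, hj⟩ : ∃ i ∈ I.1, i ∉ J.1 := by
      by_contra hcon
      push Not at hcon
      apply h
      apply Subtype.ext
      exact Finset.eq_of_subset_of_card_le hcon (by rw [I.2, J.2])
    unfold cpd
    refine Matrix.det_eq_zero_of_row_eq_zero ((I.1.orderIsoOfFin I.2).symm ⟨i, hi⟩) fun b => ?_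
    rw [Matrix.submatrix_apply]
    have h3 : I.1.orderEmbOfFin I.2 ((I.1.orderIsoOfFin I.2).symm ⟨i, hi⟩) = i := by
      rw [← Finset.coe_orderIsoOfFin_apply]
      simp
    rw [h3]
    refine Matrix.diagonal_apply_ne _ ?_
    intro h4
    apply hj
    rw [h4]
    exact Finset.orderEmbOfFin_mem _ _ _

lemma cpdO_map {R S : Type} [CommRing R] [CommRing S] (f : R →+* S) {n k : ℕ}
    (T : Matrix (Fin n) (Fin n) R) : cpd k (T.map f) = (cpd k T).map f := by
  ext I J
  unfold cpd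
  rw [Matrix.map_apply, RingHom.map_det, RingHom.mapMatrix_apply]
  rfl

lemma cpdO_det_ne (hcb : CBStmt) {O : Type} [CommRing O] [IsDomain O] {n k : ℕ}
    (M : Matrix (Fin n) (Fin n) O) (hM : M.det ≠ 0) : (cpd k M).det ≠ 0 := by
  intro h0
  have h1 : M * M.adjugate = Matrix.diagonal (fun _ => M.det) := by
    rw [Matrix.mul_adjugate, Matrix.smul_one_eq_diagonal]
  have h2 := cpdO_mul hcb (k := k) M M.adjugate
  rw [h1, cpdO_diagonal] at h2
  have h3 := congrArg Matrix.det h2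
  rw [Matrix.det_mul, h0, zero_mul, Matrix.det_diagonal] at h3
  rw [Finset.prod_eq_zero_iff] at h3
  obtain ⟨I, _, hI⟩ := h3
  rw [Finset.prod_eq_zero_iff] at hI
  obtain ⟨i, _, hi⟩ := hI
  exact hM hi

lemma cpdO_im {O : Type} [CommRing O] (φ : O →+* ℂ) {n k : ℕ} (M0 : Matrix (Fin n) (Fin n) O)
    (h : ∀ i j, (φ (M0 i j)).im = 0) (I J : Ix n k) : (φ (cpd k M0 I J)).im = 0 := by
  have h1 : M0.map φ = (Matrix.of fun i j => (φ (M0 i j)).re).map Complex.ofRealHom := by
    ext i j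
    rw [Matrix.map_apply, Matrix.map_apply, Matrix.of_apply]
    apply Complex.ext
    · simp
    · rw [h i j]
      simp
  have h2 := cpdO_map φ (k := k) M0
  rw [h1, cpdO_map] at h2
  have h3 : φ (cpd k M0 I J) =
      Complex.ofRealHom (cpd k (Matrix.of fun i j => (φ (M0 i j)).re) I J) := by
    have := congrFun (congrFun h2 I) J
    rw [Matrix.map_apply, Matrix.map_apply] at this
    exact this.symm
  rw [h3]
  simp

/-! ### Dimension one -/

lemma dim_one {O : Type} [CommRing O] [IsDomain O] [Module.Finite ℤ O] (φ : O →+* ℂ)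
    (M0 : Matrix (Fin 1) (Fin 1) O) (hM0 : M0.det ≠ 0) (c γ : ℝ) (hγ : 0 < γ)
    (N : ℕ → ℝ) (hN : Tendsto N atTop atTop) (B : ℕ → Matrix (Fin 1) (Fin 1) ℤ)
    (hB : ∀ t, (B t).det ≠ 0) (A : ℕ → Fin 1 → ℝ) (hSize : ∀ t, SizeO c γ (N t) (B t) (A t))
    (x : ℕ → Fin 1 → ℤ) (hx : ∀ t, x t ≠ 0) (hSol : ∀ t, SolO φ M0 (B t) (A t) (x t)) :
    False := by
  rw [Matrix.det_fin_one] at hM0
  have hφ : 0 < ‖φ (M0 0 0)‖ := norm_pos_iff.2 (phi_ne φ hM0)
  set D : ℝ := ‖φ (M0 0 0)‖ with hD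
  obtain ⟨t, ht⟩ := (hN.eventually_gt_atTop (-Real.log D / γ)).exists
  obtain ⟨hs1, hs2, hs3, hs4⟩ := hSize t
  obtain ⟨hA, z, hz⟩ := hSol t
  have hdet := hB t
  rw [Matrix.det_fin_one] at hdet hs4
  have hxz : x t 0 = B t 0 0 * z 0 := by
    rw [hz]
    simp [Matrix.mulVec, dotProduct]
  have hx0 : x t 0 ≠ 0 := by
    intro h
    apply hx t
    funext i
    rw [Subsingleton.elim i 0, h]
    rfl
  have hz0 : z 0 ≠ 0 := by
    intro h
    rw [h, mul_zero] at hxz
    exact hx0 hxz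
  have h1 : |(B t 0 0 : ℝ)| ≤ |(x t 0 : ℝ)| := by
    have h2 : |B t 0 0| ≤ |x t 0| := by
      rw [hxz, abs_mul]
      have := Int.one_le_abs hz0
      nlinarith [abs_nonneg (B t 0 0)]
    exact_mod_cast h2
  have h2 := hA 0
  rw [Fin.sum_univ_one, map_mul, norm_mul, map_intCast, Complex.norm_intCast] at h2
  have hBpos : (0:ℝ) < |(B t 0 0 : ℝ)| := by
    rw [abs_pos]
    exact_mod_cast hdet
  have h3 : D * |(B t 0 0 : ℝ)| ≤ A t 0 := (mul_le_mul_of_nonneg_left h1 hφ.le).trans h2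
  have hlog := Real.log_le_log (mul_pos hφ hBpos) h3
  rw [Real.log_mul hφ.ne' hBpos.ne'] at hlog
  rw [Fin.sum_univ_one] at hs4
  rw [div_lt_iff₀ hγ] at ht
  linarith

/-! ### The theorem -/

theorem subO (O : Type) [CommRing O] [IsDomain O] [Module.Free ℤ O] [Module.Finite ℤ O]
    (φ : O →+* ℂ) (hpen : PenOStmt O φ) (hcb : CBStmt) (hsf : SFStmt) (hred : RedOStmt O φ) :
    SubOStmt O φ := by
  intro n s hn M0 M lam hDat c γ hc hγ N hN kk B hLat A hSize x hx hSol
  rcases Nat.lt_or_ge n 2 with hn2 | hn2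
  · have h1 : n = 1 := by omega
    subst h1
    exact (dim_one φ M0 hDat.1 c γ hγ N hN B (fun t => (hLat t).1) A hSize x hx hSol).elim
  obtain ⟨h0, him, hM, hlam⟩ := hDat
  obtain ⟨c', γ', N1, hc', hγ', hred⟩ := hred n hn2 M0 h0 him c γ hc hγ
  have hev : ∀ᶠ t in atTop, ∃ k, k < n ∧ (1 ≤ k ∧ ∃ (A' : Ix n k → ℝ)
        (w : Fin (n.choose k - 1) → Ix n k → ℤ) (y : Ix n k → ℤ),
        SizeO c' γ' (N t) (cpd k (B t)) A' ∧ LinearIndependent ℤ w ∧
        (∀ i, SolO φ (cpd k M0) (cpd k (B t)) A' (w i)) ∧ y ≠ 0 ∧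
        (∀ i, ∑ I, y I * w i I = 0) ∧
        ∀ V : Matrix (Fin n) (Fin k) ℤ, (∃ c0, ∀ l, V l c0 = x t l) →
          ∑ I, y I * wedge V I = 0) := by
    filter_upwards [hN.eventually_ge_atTop N1] with t ht
    obtain ⟨k, hk1, hk2, A', w, y, h⟩ := hred (N t) ht (B t) (hLat t).1 (A t) (hSize t) (x t)
      (hx t) (hSol t)
    exact ⟨k, hk2, hk1, A', w, y, h⟩
  obtain ⟨k, hkn, hfr⟩ := frequently_fin hev
  obtain ⟨ψ, hψ, hall⟩ := Filter.extraction_of_frequently_atTop hfr
  have hk1 : 1 ≤ k := (hall 0).1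
  choose A' w y hS hli hsol hy0 hyw hyV using fun m => (hall m).2
  -- the number of the coordinates
  have hch : 2 ≤ n.choose k := by
    obtain ⟨n1, rfl⟩ : ∃ n1, n = n1 + 1 := ⟨n - 1, by omega⟩
    obtain ⟨k1, rfl⟩ : ∃ k1, k = k1 + 1 := ⟨k - 1, by omega⟩
    rw [Nat.choose_succ_succ']
    have h1 : 0 < n1.choose k1 := Nat.choose_pos (by omega)
    have h2 : 0 < n1.choose (k1 + 1) := Nat.choose_pos (by omega)
    omega
  have hcard : Fintype.card (Ix n k) = n.choose k - 1 + 1 := by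
    have h1 : Fintype.card (Ix n k) = (Fintype.card (Fin n)).choose k := Fintype.card_finset_len k
    rw [h1, Fintype.card_fin]
    omega
  let σ : Ix n k ≃ Fin (n.choose k - 1 + 1) := Fintype.equivFinOfCardEq hcard
  have hsum : ∀ f : Ix n k → ℝ, ∑ l, f (σ.symm l) = ∑ I, f I := fun f => Equiv.sum_comp σ.symm f
  have hsumZ : ∀ f : Ix n k → ℤ, ∑ l, f (σ.symm l) = ∑ I, f I := fun f => Equiv.sum_comp σ.symm f
  have hsumO : ∀ f : Ix n k → O, ∑ l, f (σ.symm l) = ∑ I, f I := fun f => Equiv.sum_comp σ.symm f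
  -- transport
  have hDat' : DataO φ ((cpd k M0).submatrix σ.symm σ.symm) ((cpd k M).submatrix σ.symm σ.symm)
      (fun v l => ∏ i ∈ (σ.symm l).1, lam v i) := by
    refine ⟨?_, fun i j => ?_, ?_, fun v l => ?_⟩
    · rw [Matrix.det_submatrix_equiv_self]
      exact cpdO_det_ne hcb M0 h0
    · rw [Matrix.submatrix_apply]
      exact cpdO_im φ M0 him _ _
    · rw [Matrix.det_submatrix_equiv_self]
      exact cpdO_det_ne hcb M hM
    · exact Finset.prod_ne_zero_iff.2 fun i _ => hlam v i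
  have hN' : Tendsto (fun m => N (ψ m)) atTop atTop := hN.comp hψ.tendsto_atTop
  have hLat' : ∀ m, Lat ((cpd k M).submatrix σ.symm σ.symm)
      (bet (fun v l => ∏ i ∈ (σ.symm l).1, lam v i) (kk (ψ m)))
      ((cpd k (B (ψ m))).submatrix σ.symm σ.symm) := by
    intro m
    obtain ⟨g1, g2⟩ := hLat (ψ m)
    refine ⟨?_, ?_⟩
    · rw [Matrix.det_submatrix_equiv_self]
      exact cpd_det_ne hsf hk1 hkn _ g1
    · have h1 := congrArg (fun T => cpd k T) g2
      rw [cpdO_mul hcb, cpdO_mul hcb, cpdO_diagonal, cpdO_map] at h1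
      have h2 : bet (fun v l => ∏ i ∈ (σ.symm l).1, lam v i) (kk (ψ m)) =
          fun l => ∏ i ∈ (σ.symm l).1, bet lam (kk (ψ m)) i := by
        funext l
        unfold bet
        rw [Finset.prod_comm]
        refine Finset.prod_congr rfl fun v _ => ?_
        rw [Finset.prod_pow]
      rw [h2]
      ext a b
      have h3 := congrFun (congrFun h1 (σ.symm a)) (σ.symm b)
      rw [Matrix.diagonal_mul, Matrix.mul_apply] at h3
      rw [Matrix.diagonal_mul, Matrix.mul_apply, Matrix.submatrix_apply, ← h3]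
      exact hsumO fun J => cpd k M (σ.symm a) J *
        (cpd k (B (ψ m))).map (Int.castRingHom O) J (σ.symm b)
  have hS' : ∀ m, SizeO c' γ' (N (ψ m)) ((cpd k (B (ψ m))).submatrix σ.symm σ.symm)
      (fun l => A' m (σ.symm l)) := by
    intro m
    obtain ⟨g1, g2, g3, g4⟩ := hS m
    unfold SizeO
    rw [Matrix.det_submatrix_equiv_self]
    refine ⟨g1, fun l => g2 _, fun l => g3 _, ?_⟩
    rw [hsum (fun I => Real.log (A' m I))]
    exact g4
  have hli' : ∀ m, LinearIndependent ℤ (fun i l => w m i (σ.symm l)) := by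
    intro m
    have h1 := (hli m).map' (LinearMap.funLeft ℤ ℤ σ.symm) (by
      rw [LinearMap.ker_eq_bot]
      exact LinearMap.funLeft_injective_of_surjective ℤ ℤ _ σ.symm.surjective)
    exact h1
  have hsol' : ∀ m i, SolO φ ((cpd k M0).submatrix σ.symm σ.symm)
      ((cpd k (B (ψ m))).submatrix σ.symm σ.symm)
      (fun l => A' m (σ.symm l)) (fun l => w m i (σ.symm l)) := by
    intro m i
    obtain ⟨g1, z, g2⟩ := hsol m i
    refine ⟨fun l => ?_, fun l => z (σ.symm l), ?_⟩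
    · have h1 := g1 (σ.symm l)
      rw [← hsumO] at h1
      exact h1
    · funext l
      have h1 := congrFun g2 (σ.symm l)
      rw [h1]
      unfold Matrix.mulVec dotProduct
      rw [← hsumZ]
      rfl
  obtain ⟨ys, hys0, hys⟩ := hpen (n.choose k - 1) (by omega) s _ _ _ hDat' c' γ' hc' hγ'
    (fun m => N (ψ m)) hN' (fun m => kk (ψ m)) _ hLat' _ hS'
    (fun m i l => w m i (σ.symm l)) hli' hsol'
  -- the vector in the compound space
  set Y : Ix n k → ℤ := fun I => ys (σ I) with hY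
  obtain ⟨I0, hI0⟩ : ∃ I0, Y I0 ≠ 0 := by
    by_contra hc
    push Not at hc
    apply hys0
    funext l
    have := hc (σ.symm l)
    rw [hY] at this
    simpa using this
  have c0 : Fin k := ⟨0, hk1⟩
  refine ⟨fun l => Phi Y I0 c0 (fun j => if l = j then 1 else 0), ?_, ?_⟩
  · intro h
    have h1 := congrFun h (I0.1.orderEmbOfFin I0.2 c0)
    simp only [Pi.zero_apply] at h1
    rw [Phi_unit] at h1
    exact hI0 h1
  · refine hψ.tendsto_atTop.frequently (hys.mono fun m hm => ?_)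
    have hYw : ∀ i, ∑ I, Y I * w m i I = 0 := by
      intro i
      rw [← hm i, ← hsumZ]
      refine Finset.sum_congr rfl fun l _ => ?_
      rw [hY]
      simp
    obtain ⟨α, β, hβ, hαβ⟩ := proportional hcard (w m) (hli m) Y (y m) (hy0 m) hYw (hyw m)
    have h1 : ∑ I, Y I * wedge ((EE I0).updateCol c0 (x (ψ m))) I = 0 := by
      have h2 := hyV m ((EE I0).updateCol c0 (x (ψ m)))
        ⟨c0, fun l => by rw [Matrix.updateCol_self]⟩
      have h3 : β * ∑ I, Y I * wedge ((EE I0).updateCol c0 (x (ψ m))) I =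
          α * ∑ I, y m I * wedge ((EE I0).updateCol c0 (x (ψ m))) I := by
        rw [Finset.mul_sum, Finset.mul_sum]
        refine Finset.sum_congr rfl fun I _ => ?_
        rw [← mul_assoc, ← mul_assoc, hαβ I]
      rw [h2, mul_zero] at h3
      exact (mul_eq_zero.1 h3).resolve_left hβ
    rw [← Phi_apply] at h1
    have h2 := LinearMap.pi_apply_eq_sum_univ (Phi Y I0 c0) (x (ψ m))
    rw [h1] at h2
    refine Eq.trans ?_ h2.symm
    refine Finset.sum_congr rfl fun l _ => ?_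
    rw [smul_eq_mul, mul_comm]

end Pool.Agent.TH286.GT.SubO
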