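import Mathlib
import Pool.Agent.H9.Lib.R_seed8.TH286.GT.Stms
import Pool.Agent.H9.Lib.R_seed8.H393R2.Vanish

/-!
GT-A3 (insurance version): vanishing on products of hyperplanes over a finite free algebra
-/

set_option autoImplicit false

open Finset Filter Topology

namespace Pool.Agent.TH286.GT.VanD

open Pool.Agent.TH286.GT
open Pool.Agent.TH461.SST (Big)
open Pool.Agent.H393R2 (bterm Sk Dset mem_Dset map_Sk)

section l1
variable {σ : Type*}

/-- the sum of the norms of the coefficients -/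
noncomputable def l1 (f : MvPolynomial σ ℂ) : ℝ := ∑ κ ∈ f.support, ‖f.coeff κ‖

lemma l1_nonneg (f : MvPolynomial σ ℂ) : 0 ≤ l1 f :=
  Finset.sum_nonneg (fun _ _ => norm_nonneg _)

lemma norm_coeff_le_l1 (f : MvPolynomial σ ℂ) (κ : σ →₀ ℕ) : ‖f.coeff κ‖ ≤ l1 f := by
  by_cases h : κ ∈ f.support
  · exact Finset.single_le_sum (f := fun κ => ‖f.coeff κ‖) (fun _ _ => norm_nonneg _) h
  · rw [MvPolynomial.notMem_support_iff] at h
    rw [h, norm_zero]
    exact l1_nonneg f

lemma l1_eq_sum (f : MvPolynomial σ ℂ) (s : Finset (σ →₀ ℕ)) (hs : f.support ⊆ s) :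
    l1 f = ∑ κ ∈ s, ‖f.coeff κ‖ := by
  apply Finset.sum_subset hs
  intro κ _ h
  rw [MvPolynomial.notMem_support_iff] at h
  rw [h, norm_zero]

lemma l1_zero : l1 (0 : MvPolynomial σ ℂ) = 0 := by simp [l1]

lemma l1_add_le (f g : MvPolynomial σ ℂ) : l1 (f + g) ≤ l1 f + l1 g := by
  classical
  rw [l1_eq_sum (f + g) (f.support ∪ g.support) MvPolynomial.support_add,
    l1_eq_sum f (f.support ∪ g.support) Finset.subset_union_left,
    l1_eq_sum g (f.support ∪ g.support) Finset.subset_union_right, ← Finset.sum_add_distrib]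
  apply Finset.sum_le_sum
  intro κ _
  rw [MvPolynomial.coeff_add]
  exact norm_add_le _ _

lemma l1_sum_le {ι : Type*} (s : Finset ι) (f : ι → MvPolynomial σ ℂ) :
    l1 (∑ i ∈ s, f i) ≤ ∑ i ∈ s, l1 (f i) := by
  classical
  induction s using Finset.induction_on with
  | empty => simp [l1_zero]
  | insert a s ha ih =>
    rw [Finset.sum_insert ha, Finset.sum_insert ha]
    exact (l1_add_le _ _).trans (by linarith)

lemma l1_monomial (a : σ →₀ ℕ) (c : ℂ) : l1 (MvPolynomial.monomial a c) = ‖c‖ := by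
  classical
  by_cases hc : c = 0
  · subst hc; simp [l1_zero]
  · rw [l1, MvPolynomial.support_monomial, if_neg hc]
    simp

lemma l1_mul_le (f g : MvPolynomial σ ℂ) : l1 (f * g) ≤ l1 f * l1 g := by
  classical
  have h : f * g = ∑ a ∈ f.support, ∑ b ∈ g.support,
      MvPolynomial.monomial (a + b) (f.coeff a * g.coeff b) := by
    conv_lhs => rw [MvPolynomial.as_sum f, MvPolynomial.as_sum g]
    rw [Finset.sum_mul_sum]
    apply Finset.sum_congr rfl
    intro a _
    apply Finset.sum_congr rfl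
    intro b _
    rw [MvPolynomial.monomial_mul]
  rw [h]
  refine (l1_sum_le _ _).trans ?_
  calc ∑ a ∈ f.support, l1 (∑ b ∈ g.support,
        MvPolynomial.monomial (a + b) (f.coeff a * g.coeff b))
      ≤ ∑ a ∈ f.support, ∑ b ∈ g.support, ‖f.coeff a‖ * ‖g.coeff b‖ := by
        apply Finset.sum_le_sum
        intro a _
        refine (l1_sum_le _ _).trans ?_
        apply Finset.sum_le_sum
        intro b _
        rw [l1_monomial, norm_mul]
    _ = l1 f * l1 g := by
        rw [l1, l1, Finset.sum_mul_sum]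

lemma l1_C (c : ℂ) : l1 (MvPolynomial.C c : MvPolynomial σ ℂ) = ‖c‖ := by
  rw [MvPolynomial.C_apply]; exact l1_monomial _ _

lemma l1_one : l1 (1 : MvPolynomial σ ℂ) = 1 := by
  rw [← MvPolynomial.C_1, l1_C, norm_one]

lemma l1_X (i : σ) : l1 (MvPolynomial.X i : MvPolynomial σ ℂ) = 1 := by
  rw [MvPolynomial.X]; rw [l1_monomial]; simp

lemma l1_prod_le {ι : Type*} (s : Finset ι) (f : ι → MvPolynomial σ ℂ) :
    l1 (∏ i ∈ s, f i) ≤ ∏ i ∈ s, l1 (f i) := by
  classical
  induction s using Finset.induction_on with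
  | empty => simp [l1_one]
  | insert a s ha ih =>
    rw [Finset.prod_insert ha, Finset.prod_insert ha]
    exact (l1_mul_le _ _).trans (mul_le_mul_of_nonneg_left ih (l1_nonneg _))

lemma l1_pow_le (f : MvPolynomial σ ℂ) (k : ℕ) : l1 (f ^ k) ≤ l1 f ^ k := by
  induction k with
  | zero => simp [l1_one]
  | succ k ih =>
    rw [pow_succ, pow_succ]
    exact (l1_mul_le _ _).trans (mul_le_mul_of_nonneg_right ih (l1_nonneg _))

lemma l1_natCast (k : ℕ) : l1 ((k : ℕ) : MvPolynomial σ ℂ) = k := by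
  have : ((k : ℕ) : MvPolynomial σ ℂ) = MvPolynomial.C (k : ℂ) := by simp
  rw [this, l1_C]; simp

end l1

/-- the linear forms in the variables `u` -/
noncomputable def WP (R : Type) [CommRing R] {m n n' : ℕ} (w : Fin m → Fin n' → Fin n → ℤ)
    (h : Fin m) (l : Fin n) : MvPolynomial (Fin m × Fin n') R :=
  ∑ i, MvPolynomial.X (h, i) * MvPolynomial.C ((w h i l : ℤ) : R)

lemma form_eq {O : Type} [CommRing O] (R : Type) [CommRing R] (ψ : O →+* R) {m n n' : ℕ}
    (w : Fin m → Fin n' → Fin n → ℤ)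
    (M : Matrix (Fin n) (Fin n) O) (h : Fin m) (l : Fin n) :
    ∑ j, (MvPolynomial.C (ψ (M l j)) : MvPolynomial (Fin m × Fin n') R) * WP R w h j =
      ∑ i, MvPolynomial.X (h, i) * MvPolynomial.C (ψ (∑ j, M l j * ((w h i j : ℤ) : O))) := by
  unfold WP
  simp_rw [Finset.mul_sum]
  rw [Finset.sum_comm]
  apply Finset.sum_congr rfl
  intro i _
  rw [map_sum, map_sum, Finset.mul_sum]
  apply Finset.sum_congr rfl
  intro j _
  rw [map_mul, map_mul, show ψ ((w h i j : ℤ) : O) = ((w h i j : ℤ) : R) from map_intCast ψ _]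
  ring

/-- divisibility of the expansion -/
lemma dvd_expansion {O : Type} [CommRing O] {m n s : ℕ} {R : Type} [CommRing R] (ψ : O →+* R)
    (r k : Fin m → ℕ) (j1 : Fin n)
    (d : (Fin m → Fin n → ℕ) → O) (M : Matrix (Fin n) (Fin n) O) (kk : Fin m → Fin s → ℕ)
    (E : Fin s → ℕ) (hE : LowExpO r k d kk E) (lam : Fin s → Fin n → R)
    (L : Fin m → Fin n → R) (hL : ∀ h l, ∏ v, lam v l ^ kk h v ∣ L h l) :
    ∏ v, (∏ l, lam v l) ^ E v ∣ ∑ J ∈ Dset m n r, ψ (d J) * ∏ h,
        ∑ κ ∈ Finset.piAntidiag (Finset.univ : Finset (Fin n)) (k h),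
          ∏ l, ((((J h l).choose (κ l) : ℕ) : R) * ψ (M l j1) ^ (κ l) *
            (L h l) ^ (J h l - κ l)) := by
  classical
  apply Finset.dvd_sum
  intro J hJ
  by_cases hd : d J = 0
  · rw [hd, map_zero, zero_mul]; exact dvd_zero _
  apply Dvd.dvd.mul_left
  rw [Finset.prod_univ_sum]
  apply Finset.dvd_sum
  intro κ hκ
  rw [Fintype.mem_piFinset] at hκ
  have hκ' : ∀ h, ∑ l, κ h l = k h := fun h => by
    have := hκ h
    rw [Finset.mem_piAntidiag] at this
    exact this.1
  by_cases hle : ∀ h l, κ h l ≤ J h l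
  · have h1 := hE J hJ hd κ hκ' hle
    have h2 : ∏ v, (∏ l, lam v l) ^ E v ∣
        ∏ v, ∏ l, lam v l ^ (∑ h, kk h v * (J h l - κ h l)) := by
      apply Finset.prod_dvd_prod_of_dvd
      intro v _
      rw [← Finset.prod_pow]
      apply Finset.prod_dvd_prod_of_dvd
      intro l _
      exact pow_dvd_pow _ (h1 v l)
    refine h2.trans ?_
    have h3 : ∏ v, ∏ l, lam v l ^ (∑ h, kk h v * (J h l - κ h l)) =
        ∏ h, ∏ l, (∏ v, lam v l ^ kk h v) ^ (J h l - κ h l) := by
      calc ∏ v, ∏ l, lam v l ^ (∑ h, kk h v * (J h l - κ h l))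
          = ∏ v, ∏ l, ∏ h, lam v l ^ (kk h v * (J h l - κ h l)) := by
            refine Finset.prod_congr rfl fun v _ => Finset.prod_congr rfl fun l _ => ?_
            rw [← Finset.prod_pow_eq_pow_sum]
        _ = ∏ v, ∏ h, ∏ l, lam v l ^ (kk h v * (J h l - κ h l)) := by
            refine Finset.prod_congr rfl fun v _ => ?_
            rw [Finset.prod_comm]
        _ = ∏ h, ∏ v, ∏ l, lam v l ^ (kk h v * (J h l - κ h l)) := by
            rw [Finset.prod_comm]
        _ = ∏ h, ∏ l, (∏ v, lam v l ^ kk h v) ^ (J h l - κ h l) := by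
            refine Finset.prod_congr rfl fun h _ => ?_
            rw [Finset.prod_comm]
            refine Finset.prod_congr rfl fun l _ => ?_
            rw [← Finset.prod_pow]
            refine Finset.prod_congr rfl fun v _ => ?_
            rw [pow_mul]
    rw [h3]
    apply Finset.prod_dvd_prod_of_dvd
    intro h _
    apply Finset.prod_dvd_prod_of_dvd
    intro l _
    apply Dvd.dvd.mul_left
    exact pow_dvd_pow_of_dvd (hL h l) _
  · push Not at hle
    obtain ⟨h, l, hl⟩ := hle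
    have : ∏ h, ∏ l, ((((J h l).choose (κ h l) : ℕ) : R) * ψ (M l j1) ^ (κ h l) *
            (L h l) ^ (J h l - κ h l)) = 0 := by
      apply Finset.prod_eq_zero (Finset.mem_univ h)
      apply Finset.prod_eq_zero (Finset.mem_univ l)
      rw [Nat.choose_eq_zero_of_lt hl, Nat.cast_zero, zero_mul, zero_mul]
    rw [this]
    exact dvd_zero _

/-- the norm of the expansion -/
lemma l1_expansion {O : Type} [CommRing O] {m n : ℕ} {σ : Type} (ψ : O →+* MvPolynomial σ ℂ)
    (r k : Fin m → ℕ) (j1 : Fin n)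
    (d : (Fin m → Fin n → ℕ) → O) (D0 : (Fin m → Fin n → ℕ) → ℤ)
    (hd : ∀ J ∈ Dset m n r, l1 (ψ (d J)) ≤ |(D0 J : ℝ)|)
    (M : Matrix (Fin n) (Fin n) O) (X : ℝ)
    (hM : ∀ l, l1 (ψ (M l j1)) ≤ X) (A : Fin m → Fin n → ℝ)
    (L : Fin m → Fin n → MvPolynomial σ ℂ) (hL : ∀ h l, l1 (L h l) ≤ X * A h l) :
    l1 (∑ J ∈ Dset m n r, ψ (d J) * ∏ h,
        ∑ κ ∈ Finset.piAntidiag (Finset.univ : Finset (Fin n)) (k h),
          ∏ l, ((((J h l).choose (κ l) : ℕ) : MvPolynomial σ ℂ) *
            ψ (M l j1) ^ (κ l) * (L h l) ^ (J h l - κ l))) ≤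
      ∑ J ∈ Dset m n r, |(D0 J : ℝ)| * ∏ h,
        ∑ κ ∈ Finset.piAntidiag (Finset.univ : Finset (Fin n)) (k h),
          ∏ l, (((J h l).choose (κ l) : ℝ) * X ^ (κ l) * (X * A h l) ^ (J h l - κ l)) := by
  refine (l1_sum_le _ _).trans ?_
  apply Finset.sum_le_sum
  intro J hJ
  refine (l1_mul_le _ _).trans ?_
  refine mul_le_mul (hd J hJ) ?_ (l1_nonneg _) (abs_nonneg _)
  refine (l1_prod_le _ _).trans ?_
  apply Finset.prod_le_prod
  · intro h _; exact l1_nonneg _
  intro h _
  refine (l1_sum_le _ _).trans ?_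
  apply Finset.sum_le_sum
  intro κ _
  refine (l1_prod_le _ _).trans ?_
  apply Finset.prod_le_prod
  · intro l _; exact l1_nonneg _
  intro l _
  refine (l1_mul_le _ _).trans ?_
  refine mul_le_mul ?_ ?_ (l1_nonneg _) ?_
  · refine (l1_mul_le _ _).trans ?_
    rw [l1_natCast]
    apply mul_le_mul_of_nonneg_left _ (by positivity)
    exact (l1_pow_le _ _).trans (pow_le_pow_left₀ (l1_nonneg _) (hM l) _)
  · exact (l1_pow_le _ _).trans (pow_le_pow_left₀ (l1_nonneg _) (hL h l) _)
  · have : 0 ≤ X := (l1_nonneg _).trans (hM l)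
    positivity

lemma phi_ne {O : Type} [CommRing O] [IsDomain O] [Module.Finite ℤ O] (φ : O →+* ℂ)
    {x : O} (hx : x ≠ 0) : φ x ≠ 0 := by
  intro h0
  have h1 : x ∈ RingHom.ker φ := h0
  have h2 := Ideal.comap_ne_bot_of_integral_mem (R := ℤ) hx h1 (Algebra.IsIntegral.isIntegral x)
  apply h2
  rw [eq_bot_iff]
  intro z hz
  rw [Ideal.mem_comap, RingHom.mem_ker] at hz
  rw [eq_intCast, map_intCast] at hz
  have h3 : z = 0 := by exact_mod_cast hz
  rw [h3]
  exact Submodule.zero_mem _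

theorem vanishO (O : Type) [CommRing O] [IsDomain O] [Module.Free ℤ O] [Module.Finite ℤ O]
    (φ : O →+* ℂ) (hexp : ExpandOStmt O) : VanishOStmt O φ := by
  classical
  intro m n s n' r j1 k c M0 hM0 M hM lam d0 hd0 d hd kk B hB z0 E hE b hb0 hb X hX hN hMX D0 hD0
    A hA hsmall
  obtain ⟨w, hw⟩ : ∃ w : Fin m → Fin n' → Fin n → ℤ, ∀ h i, w h i = (B h).mulVec (z0 h i) :=
    ⟨fun h i => (B h).mulVec (z0 h i), fun _ _ => rfl⟩
  have hF : Sk r j1 k c (WP ℤ w) = 0 := by
    ext β
    rw [MvPolynomial.coeff_zero]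
    by_contra hne
    obtain ⟨z, hz⟩ : ∃ z : ℤ, z = (Sk r j1 k c (WP ℤ w)).coeff β := ⟨_, rfl⟩
    rw [← hz] at hne
    -- coefficients after a change of rings
    have hcoef : ∀ (R : Type) [CommRing R], (Sk r j1 k c (WP R w)).coeff β = ((z : ℤ) : R) := by
      intro R _
      have : Sk r j1 k c (WP R w) = MvPolynomial.map (Int.castRingHom R)
          (Sk r j1 k c (WP ℤ w)) := by
        rw [map_Sk]
        congr 1
        funext h l
        unfold WP
        rw [map_sum]
        apply Finset.sum_congr rfl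
        intro i _
        rw [map_mul, MvPolynomial.map_X, MvPolynomial.map_C]
        simp
      rw [this, MvPolynomial.coeff_map, ← hz]
      simp
    -- divisibility
    have h1 : ∏ v, (∏ l, lam v l) ^ E v ∣ M.det ^ (∑ h, r h) * ((z : ℤ) : O) := by
      have e1 := hexp (MvPolynomial (Fin m × Fin n') O) MvPolynomial.C m n r j1 k c d M hd
        (WP O w)
      have hL : ∀ h l, ∏ v, (MvPolynomial.C (lam v l) : MvPolynomial (Fin m × Fin n') O) ^
          kk h v ∣ ∑ i, MvPolynomial.C (M l i) * WP O w h i := by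
        intro h l
        have e3 := form_eq O (RingHom.id O) w M h l
        simp only [RingHom.id_apply] at e3
        rw [e3]
        apply Finset.dvd_sum
        intro i _
        apply Dvd.dvd.mul_left
        have e4 : ∏ v, (MvPolynomial.C (lam v l) : MvPolynomial (Fin m × Fin n') O) ^ kk h v =
            MvPolynomial.C (bet lam (kk h) l) := by
          rw [bet, map_prod]
          exact Finset.prod_congr rfl fun v _ => by rw [map_pow]
        rw [e4]
        apply map_dvd
        -- the lattice condition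
        have e5 : ∑ j, M l j * ((w h i j : ℤ) : O) =
            bet lam (kk h) l * ∑ j, M l j * ((z0 h i j : ℤ) : O) := by
          have e6 : ∑ j, M l j * ((w h i j : ℤ) : O) =
              (M * (B h).map (Int.castRingHom O)).mulVec (fun j => ((z0 h i j : ℤ) : O)) l := by
            rw [← Matrix.mulVec_mulVec, Matrix.mulVec, dotProduct]
            refine Finset.sum_congr rfl fun j _ => ?_
            rw [hw]
            congr 1
            simp only [Matrix.mulVec, dotProduct, Matrix.map_apply]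
            rw [Int.cast_sum]
            refine Finset.sum_congr rfl fun x _ => ?_
            rw [Int.cast_mul]
            rfl
          rw [e6, (hB h).2, ← Matrix.mulVec_mulVec, Matrix.mulVec_diagonal]
          rfl
        rw [e5]
        exact Dvd.intro _ rfl
      have e2 := dvd_expansion (MvPolynomial.C : O →+* MvPolynomial (Fin m × Fin n') O) r k j1 d M
        kk E hE (fun v l => MvPolynomial.C (lam v l)) _ hL
      have e7 : ∏ v, (∏ l, (MvPolynomial.C (lam v l) : MvPolynomial (Fin m × Fin n') O)) ^ E v =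
          MvPolynomial.C (∏ v, (∏ l, lam v l) ^ E v) := by
        rw [map_prod]
        refine Finset.prod_congr rfl fun v _ => ?_
        rw [map_pow, map_prod]
      rw [← e1, e7, ← map_pow, MvPolynomial.C_dvd_iff_dvd_coeff] at e2
      have e3 := e2 β
      rw [MvPolynomial.coeff_C_mul, hcoef O] at e3
      exact e3
    set e : ℕ := Module.finrank ℤ O with hed
    have hfin : 0 < e := Module.finrank_pos
    have hNM : Algebra.norm ℤ M.det ≠ 0 := Algebra.norm_ne_zero_iff.2 hM
    have h4 : ∏ v, b v ^ (E v) ≤ |((Algebra.norm ℤ M.det : ℤ) : ℝ)| ^ (∑ h, r h) * |(z : ℝ)| := by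
      obtain ⟨q, hq⟩ := h1
      have e1 := congrArg (Algebra.norm ℤ) hq
      rw [map_mul, map_mul, map_pow, map_prod] at e1
      have e2 : Algebra.norm ℤ ((z : ℤ) : O) = z ^ e := by
        have := Algebra.norm_algebraMap_of_basis (Module.Free.chooseBasis ℤ O) z
        rw [← Module.finrank_eq_card_chooseBasisIndex ℤ O, ← hed] at this
        rw [← this]
        congr 1
      rw [e2] at e1
      simp only [map_pow] at e1
      set D : ℤ := Algebra.norm ℤ M.det with hD
      have e3 : D ^ (∑ h, r h) * z ^ e ≠ 0 :=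
        mul_ne_zero (pow_ne_zero _ hNM) (pow_ne_zero _ hne)
      have e4 : |∏ v, (Algebra.norm ℤ (∏ l, lam v l)) ^ E v| ≤ |D ^ (∑ h, r h) * z ^ e| :=
        Int.le_of_dvd (abs_pos.2 e3) (by
          rw [abs_dvd, dvd_abs]
          exact Dvd.intro _ e1.symm)
      have e5 : (|∏ v, ((Algebra.norm ℤ (∏ l, lam v l) : ℤ) : ℝ) ^ E v| : ℝ) ≤
          |((D : ℤ) : ℝ) ^ (∑ h, r h) * (z : ℝ) ^ e| := by exact_mod_cast e4
      have e6 : |∏ v, ((Algebra.norm ℤ (∏ l, lam v l) : ℤ) : ℝ) ^ E v| =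
          (∏ v, b v ^ E v) ^ e := by
        rw [Finset.abs_prod, ← Finset.prod_pow]
        refine Finset.prod_congr rfl fun v _ => ?_
        rw [abs_pow, ← hb v, ← pow_mul, ← pow_mul, mul_comm]
      rw [e6, abs_mul, abs_pow, abs_pow] at e5
      have e7 : (1 : ℝ) ≤ |((D : ℤ) : ℝ)| := by
        rw [← Int.cast_abs]
        exact_mod_cast Int.one_le_abs hNM
      have e8 : |((D : ℤ) : ℝ)| ^ (∑ h, r h) * |(z : ℝ)| ^ e ≤
          (|((D : ℤ) : ℝ)| ^ (∑ h, r h) * |(z : ℝ)|) ^ e := by
        rw [mul_pow]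
        refine mul_le_mul_of_nonneg_right ?_ (by positivity)
        exact le_self_pow₀ (one_le_pow₀ e7) hfin.ne'
      have hP : 0 ≤ ∏ v, b v ^ E v := Finset.prod_nonneg fun v _ => pow_nonneg (hb0 v) _
      exact (pow_le_pow_iff_left₀ hP (by positivity) hfin.ne').1 (e5.trans e8)
    -- archimedean bound
    have h5 : ‖φ M0.det‖ ^ (∑ h, r h) * |(z : ℝ)| ≤ ∑ J ∈ Dset m n r, |(D0 J : ℝ)| * ∏ h,
        ∑ κ ∈ Finset.piAntidiag (Finset.univ : Finset (Fin n)) (k h),
          ∏ l, (((J h l).choose (κ l) : ℝ) * X ^ (κ l) * (X * A h l) ^ (J h l - κ l)) := by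
      have e1 := hexp (MvPolynomial (Fin m × Fin n') ℂ) (MvPolynomial.C.comp φ) m n r j1 k c d0 M0
        hd0 (WP ℂ w)
      have hL : ∀ h l, l1 (∑ i, (MvPolynomial.C.comp φ) (M0 l i) * WP ℂ w h i) ≤ X * A h l := by
        intro h l
        have e3 := form_eq ℂ φ w M0 h l
        have e4 : ∑ i, ((MvPolynomial.C.comp φ) (M0 l i) : MvPolynomial (Fin m × Fin n') ℂ) *
            WP ℂ w h i = ∑ i, MvPolynomial.X (h, i) *
              MvPolynomial.C (φ (∑ j, M0 l j * ((w h i j : ℤ) : O))) := e3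
        rw [e4]
        refine (l1_sum_le _ _).trans (le_trans ?_ (hA h l))
        apply Finset.sum_le_sum
        intro i _
        refine (l1_mul_le _ _).trans ?_
        rw [l1_X, l1_C, one_mul, hw]
      have e2 := l1_expansion (MvPolynomial.C.comp φ) r k j1 d0 D0
        (fun J hJ => by
          rw [RingHom.comp_apply, l1_C]
          exact hD0 J hJ) M0 X
        (fun l => by
          rw [RingHom.comp_apply, l1_C]
          exact hMX l) A _ hL
      rw [← e1] at e2
      refine le_trans ?_ e2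
      rw [RingHom.comp_apply, ← map_pow]
      refine le_trans ?_ (norm_coeff_le_l1 _ β)
      rw [MvPolynomial.coeff_C_mul, hcoef ℂ, norm_mul, norm_pow, Complex.norm_intCast]
    have hφ : 0 < ‖φ M0.det‖ := norm_pos_iff.2 (phi_ne φ hM0)
    have h6 : (∏ v, b v ^ (E v)) * ‖φ M0.det‖ ^ (∑ h, r h) ≤
        Big r k X D0 A * ‖φ M0.det‖ ^ (∑ h, r h) := by
      calc (∏ v, b v ^ (E v)) * ‖φ M0.det‖ ^ (∑ h, r h)
          ≤ (|((Algebra.norm ℤ M.det : ℤ) : ℝ)| ^ (∑ h, r h) * |(z : ℝ)|) *
              ‖φ M0.det‖ ^ (∑ h, r h) := mul_le_mul_of_nonneg_right h4 (by positivity)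
        _ = |((Algebra.norm ℤ M.det : ℤ) : ℝ)| ^ (∑ h, r h) *
              (‖φ M0.det‖ ^ (∑ h, r h) * |(z : ℝ)|) := by ring
        _ ≤ (X * ‖φ M0.det‖) ^ (∑ h, r h) * (∑ J ∈ Dset m n r, |(D0 J : ℝ)| * ∏ h,
              ∑ κ ∈ Finset.piAntidiag (Finset.univ : Finset (Fin n)) (k h),
                ∏ l, (((J h l).choose (κ l) : ℝ) * X ^ (κ l) *
                  (X * A h l) ^ (J h l - κ l))) := by
            refine mul_le_mul (pow_le_pow_left₀ (abs_nonneg _) hN _) h5 (by positivity)
              (by positivity)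
        _ = Big r k X D0 A * ‖φ M0.det‖ ^ (∑ h, r h) := by
            unfold Big
            rw [mul_pow]
            ring
    have h7 := le_of_mul_le_mul_right h6 (by positivity)
    linarith
  intro u
  have h1 := congrArg (MvPolynomial.eval (fun x : Fin m × Fin n' => u x.1 x.2))
    (congrArg (MvPolynomial.map (Int.castRingHom ℝ)) hF)
  rw [map_Sk, map_Sk, map_zero, map_zero] at h1
  rw [← h1]
  congr 1
  funext h l
  unfold WP
  rw [map_sum, map_sum]
  apply Finset.sum_congr rfl
  intro i _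
  rw [hw]
  simp

end Pool.Agent.TH286.GT.VanD
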