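import Pool.Agent.H9.Lib.R_seed8.TH286.GT.Alg
import Pool.Agent.H9.Lib.R_seed8.TH286.GT.AuxO
import Pool.Agent.H9.Lib.R_seed8.TH286.GT.ExpandO
import Pool.Agent.H9.Lib.R_seed8.TH286.GT.VanD
import Pool.Agent.H9.Lib.R_seed8.TH286.GT.EstO
import Pool.Agent.H9.Lib.R_seed8.TH286.GT.CoreO
import Pool.Agent.H9.Lib.R_seed8.TH286.GT.DichO
import Pool.Agent.H9.Lib.R_seed8.TH286.GT.PenO
import Pool.Agent.H9.Lib.R_seed8.TH286.GT.RedO
import Pool.Agent.H9.Lib.R_seed8.TH286.GT.SubO
import Pool.Agent.H9.Lib.R_seed8.TH286.GT.GrowO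
import Pool.Agent.H9.Lib.R_seed8.TH286.GT.GrowD
import Pool.Agent.H9.Lib.R_seed8.TH461.SST.Hp
import Pool.Agent.H9.Lib.R_seed8.TH461.SST.CB
import Pool.Agent.H9.Lib.R_seed8.TH461.SST.SF
import Pool.Agent.H9.Lib.R_seed8.TH461.SST.Gap
import Pool.Agent.H9.Lib.R_seed8.TH461.SST.Comp

/-!
# Project GT: the subspace theorem for orbits and the growth theorem
-/

set_option autoImplicit false

namespace Pool.Agent.TH286.GT

open Pool.Agent.TH461.SST (HeightPairStmt CBStmt SFStmt GapStmt CompStmt)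

theorem cb : CBStmt := Pool.Agent.TH461.SST.CB.cb
theorem sf : SFStmt := Pool.Agent.TH461.SST.SF.sf cb
theorem gap : GapStmt := Pool.Agent.TH461.SST.Gap.gap
theorem comp : CompStmt := Pool.Agent.TH461.SST.Comp.comp cb sf
theorem hp : HeightPairStmt := Pool.Agent.TH461.SST.Hp.height_pair

/-- the subspace theorem with algebraic forms for the points of the lattices `B_t ℤ^n` -/
theorem subspaceO (O : Type) [CommRing O] [IsDomain O] [Module.Free ℤ O] [Module.Finite ℤ O]
    (φ : O →+* ℂ) : SubOStmt O φ :=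
  SubO.subO O φ (PenO.penO O φ (CoreO.coreO O φ (AuxO.auxO O φ)
    (VanD.vanishO O φ (ExpandO.expandO O)) (EstO.estO O)) hp (DichO.dichO O φ (Alg.ht O φ)))
    cb sf (RedO.redO O φ cb sf gap comp)

/-- the growth theorem of Evertse and of van der Poorten and Schlickewei -/
theorem growth : Pool.Agent.H612.LR.GrowthTheorem :=
  GrowD.growD fun O _ _ _ _ φ => GrowO.growO O φ (PowO.powO O φ (subspaceO O φ))

end Pool.Agent.TH286.GT
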