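import Mathlib
import Pool.Agent.H9.Lib.R_seed8.TH286.GT.Stms

/-!
Project GT, job GT-A0: a multiplicative size on a finite free `ℤ`-algebra, with an upper bound of
the norm and Liouville's inequality. The size of `x` is the sum of the absolute values of the
entries of the matrix of multiplication by `x`.
-/

set_option autoImplicit false

open Finset Filter Topology

namespace Pool.Agent.TH286.GT.Alg

open Pool.Agent.TH286.GT
open Pool.Agent.TH461.SST (Big Ix wedge cpd Bal HeightPairStmt CBStmt SFStmt GapStmt CompStmt)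

section Mat

variable {ι : Type*} [Fintype ι]

/-- the sum of the absolute values of the entries -/
noncomputable def sz (A : Matrix ι ι ℤ) : ℝ := ∑ i, ∑ j, |(A i j : ℝ)|

lemma sz_nonneg (A : Matrix ι ι ℤ) : 0 ≤ sz A :=
  Finset.sum_nonneg fun _ _ => Finset.sum_nonneg fun _ _ => abs_nonneg _

lemma sz_add (A B : Matrix ι ι ℤ) : sz (A + B) ≤ sz A + sz B := by
  unfold sz
  rw [← Finset.sum_add_distrib]
  refine Finset.sum_le_sum fun i _ => ?_
  rw [← Finset.sum_add_distrib]
  refine Finset.sum_le_sum fun j _ => ?_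
  rw [Matrix.add_apply, Int.cast_add]
  exact abs_add_le _ _

lemma le_sz (A : Matrix ι ι ℤ) (i j : ι) : |(A i j : ℝ)| ≤ sz A := by
  unfold sz
  refine le_trans ?_ (Finset.single_le_sum (f := fun i => ∑ j, |(A i j : ℝ)|)
    (fun _ _ => Finset.sum_nonneg fun _ _ => abs_nonneg _) (Finset.mem_univ i))
  exact Finset.single_le_sum (f := fun j => |(A i j : ℝ)|) (fun _ _ => abs_nonneg _)
    (Finset.mem_univ j)

lemma row_le_sz (A : Matrix ι ι ℤ) (i : ι) : ∑ j, |(A i j : ℝ)| ≤ sz A := by
  unfold sz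
  exact Finset.single_le_sum (f := fun i => ∑ j, |(A i j : ℝ)|)
    (fun _ _ => Finset.sum_nonneg fun _ _ => abs_nonneg _) (Finset.mem_univ i)

lemma sz_mul (A B : Matrix ι ι ℤ) : sz (A * B) ≤ sz A * sz B := by
  have h1 : ∀ i, ∑ j, |((A * B) i j : ℝ)| ≤ (∑ k, |(A i k : ℝ)|) * sz B := by
    intro i
    calc ∑ j, |((A * B) i j : ℝ)| ≤ ∑ j, ∑ k, |(A i k : ℝ)| * |(B k j : ℝ)| := by
          refine Finset.sum_le_sum fun j _ => ?_
          rw [Matrix.mul_apply, Int.cast_sum]
          refine (Finset.abs_sum_le_sum_abs _ _).trans (le_of_eq ?_)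
          refine Finset.sum_congr rfl fun k _ => ?_
          rw [Int.cast_mul, abs_mul]
      _ = ∑ k, |(A i k : ℝ)| * ∑ j, |(B k j : ℝ)| := by
          rw [Finset.sum_comm]
          refine Finset.sum_congr rfl fun k _ => ?_
          rw [Finset.mul_sum]
      _ ≤ ∑ k, |(A i k : ℝ)| * sz B :=
          Finset.sum_le_sum fun k _ =>
            mul_le_mul_of_nonneg_left (row_le_sz B k) (abs_nonneg _)
      _ = (∑ k, |(A i k : ℝ)|) * sz B := by rw [Finset.sum_mul]
  calc sz (A * B) ≤ ∑ i, (∑ k, |(A i k : ℝ)|) * sz B := Finset.sum_le_sum fun i _ => h1 i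
    _ = sz A * sz B := by rw [← Finset.sum_mul]; rfl

lemma one_le_sz (A : Matrix ι ι ℤ) (hA : A ≠ 0) : 1 ≤ sz A := by
  by_contra hlt
  apply hA
  ext i j
  by_contra hne
  have h1 : (1 : ℤ) ≤ |A i j| := Int.one_le_abs hne
  have h2 : (1 : ℝ) ≤ |(A i j : ℝ)| := by exact_mod_cast h1
  exact hlt (h2.trans (le_sz A i j))

variable [DecidableEq ι]

lemma det_bound (A : Matrix ι ι ℤ) (x : ℝ) (hx : ∀ i j, |(A i j : ℝ)| ≤ x) :
    |(A.det : ℝ)| ≤ (Nat.factorial (Fintype.card ι) : ℝ) * x ^ Fintype.card ι := by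
  have h := Matrix.det_le (A := A.map (Int.castRingHom ℝ)) (abv := AbsoluteValue.abs) (x := x)
    (by intro i j; simpa using hx i j)
  have h2 : (A.map (Int.castRingHom ℝ)).det = ((A.det : ℤ) : ℝ) := by
    have := (Int.castRingHom ℝ).map_det A
    simpa using this.symm
  rw [h2] at h
  simpa using h

lemma adj_bound (A : Matrix ι ι ℤ) (x : ℝ) (h1 : 1 ≤ x) (hx : ∀ i j, |(A i j : ℝ)| ≤ x)
    (i j : ι) :
    |(A.adjugate i j : ℝ)| ≤ (Nat.factorial (Fintype.card ι) : ℝ) * x ^ Fintype.card ι := by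
  rw [Matrix.adjugate_apply]
  apply det_bound
  intro k l
  by_cases hk : k = j
  · subst hk
    rw [Matrix.updateRow_self]
    by_cases hl : l = i
    · subst hl; simpa using h1
    · rw [Pi.single_eq_of_ne hl]; simp; linarith
  · rw [Matrix.updateRow_ne hk]; exact hx k l

end Mat

theorem ht (O : Type) [CommRing O] [IsDomain O] [Module.Free ℤ O] [Module.Finite ℤ O] (φ : O →+* ℂ) :
    HtStmt O φ := by
  classical
  let ι := Module.Free.ChooseBasisIndex ℤ O
  let b : Module.Basis ι ℤ O := Module.Free.chooseBasis ℤ O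
  let L : O →ₐ[ℤ] Matrix ι ι ℤ := Algebra.leftMulMatrix b
  let v : ι → ℤ := b.repr 1
  have hLinj : Function.Injective L := Algebra.leftMulMatrix_injective b
  have hne : Nonempty ι := by
    by_contra hem
    rw [not_nonempty_iff] at hem
    have : (1 : O) = 0 := by
      apply b.repr.injective
      ext i
      exact hem.elim i
    exact one_ne_zero this
  set e := Fintype.card ι with he
  have he1 : 1 ≤ e := Fintype.card_pos
  -- the bound of `φ`
  obtain ⟨C1, hC1⟩ : ∃ C1 : ℝ, ∀ k j, |(v j : ℝ)| * ‖φ (b k)‖ ≤ C1 := by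
    refine ⟨∑ k, ∑ j, |(v j : ℝ)| * ‖φ (b k)‖, fun k j => ?_⟩
    refine le_trans ?_ (Finset.single_le_sum
      (f := fun k => ∑ j, |(v j : ℝ)| * ‖φ (b k)‖)
      (fun _ _ => Finset.sum_nonneg fun _ _ => mul_nonneg (abs_nonneg _) (norm_nonneg _))
      (Finset.mem_univ k))
    exact Finset.single_le_sum (f := fun j => |(v j : ℝ)| * ‖φ (b k)‖)
      (fun _ _ => mul_nonneg (abs_nonneg _) (norm_nonneg _)) (Finset.mem_univ j)
  have key : ∀ A : Matrix ι ι ℤ, ‖φ (∑ k, (A.mulVec v k) • b k)‖ ≤ C1 * sz A := by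
    intro A
    rw [map_sum]
    calc ‖∑ k, φ ((A.mulVec v k) • b k)‖ ≤ ∑ k, ‖φ ((A.mulVec v k) • b k)‖ := norm_sum_le _ _
      _ ≤ ∑ k, ∑ j, C1 * |(A k j : ℝ)| := by
          refine Finset.sum_le_sum fun k _ => ?_
          rw [zsmul_eq_mul, map_mul, map_intCast, norm_mul, Complex.norm_intCast]
          have h1 : |((A.mulVec v k : ℤ) : ℝ)| ≤ ∑ j, |(A k j : ℝ)| * |(v j : ℝ)| := by
            rw [Matrix.mulVec, dotProduct, Int.cast_sum]
            refine (Finset.abs_sum_le_sum_abs _ _).trans (le_of_eq ?_)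
            refine Finset.sum_congr rfl fun j _ => ?_
            rw [Int.cast_mul, abs_mul]
          refine (mul_le_mul_of_nonneg_right h1 (norm_nonneg _)).trans ?_
          rw [Finset.sum_mul]
          refine Finset.sum_le_sum fun j _ => ?_
          have := mul_le_mul_of_nonneg_left (hC1 k j) (abs_nonneg (A k j : ℝ))
          calc |(A k j : ℝ)| * |(v j : ℝ)| * ‖φ (b k)‖
              = |(A k j : ℝ)| * (|(v j : ℝ)| * ‖φ (b k)‖) := by ring
            _ ≤ |(A k j : ℝ)| * C1 := this
            _ = C1 * |(A k j : ℝ)| := mul_comm _ _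
      _ = C1 * sz A := by
          unfold sz
          rw [Finset.mul_sum]
          refine Finset.sum_congr rfl fun k _ => ?_
          rw [Finset.mul_sum]
  have hLv : ∀ x : O, ∑ k, ((L x).mulVec v k) • b k = x := by
    intro x
    have h1 : (L x).mulVec v = b.repr x := by
      have := Algebra.leftMulMatrix_mulVec_repr b x 1
      rw [mul_one] at this
      exact this
    rw [h1]
    exact b.sum_repr x
  have hphi : ∀ x : O, ‖φ x‖ ≤ C1 * sz (L x) := by
    intro x
    have := key (L x)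
    rwa [hLv x] at this
  have hnorm : ∀ x : O, Algebra.norm ℤ x = (L x).det := fun x =>
    Algebra.norm_eq_matrix_det b x
  -- the complementary element
  have hadj : ∀ x : O, x * (∑ k, ((L x).adjugate.mulVec v k) • b k)
      = ((Algebra.norm ℤ x : ℤ) : O) := by
    intro x
    set y := ∑ k, ((L x).adjugate.mulVec v k) • b k with hy
    have hrep : (b.repr y : ι → ℤ) = (L x).adjugate.mulVec v := by
      rw [hy]
      exact b.repr_sum_self _
    have h1 : (b.repr (x * y) : ι → ℤ) = (L x).mulVec (b.repr y) :=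
      (Algebra.leftMulMatrix_mulVec_repr b x y).symm
    have h2 : (b.repr (x * y) : ι → ℤ) = (L x).det • v := by
      rw [h1, hrep, Matrix.mulVec_mulVec, Matrix.mul_adjugate, Matrix.smul_mulVec,
        Matrix.one_mulVec]
    have h3 : x * y = (L x).det • (1 : O) := by
      apply b.repr.injective
      apply DFunLike.coe_injective
      rw [h2, map_smul]
      rfl
    rw [h3, hnorm, zsmul_eq_mul, mul_one]
  set F : ℝ := (Nat.factorial e : ℝ) with hF
  have hF1 : 1 ≤ F := by
    rw [hF]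
    exact_mod_cast Nat.factorial_pos e
  have hC1' : 0 ≤ C1 :=
    (mul_nonneg (abs_nonneg _) (norm_nonneg _)).trans (hC1 hne.some hne.some)
  have he1' : (1 : ℝ) ≤ e := by exact_mod_cast he1
  set C : ℝ := 1 + e + C1 + F + C1 * ((e : ℝ) * (e * F)) with hC
  have hbig : 0 ≤ C1 * ((e : ℝ) * (e * F)) := by positivity
  refine ⟨fun x => sz (L x), C, e, ?_, he1, ?_, ?_, ?_, ?_, ?_, ?_, ?_⟩
  · rw [hC]; nlinarith
  · intro x; exact sz_nonneg _
  · intro x y
    simp only [map_add]
    exact sz_add _ _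
  · intro x y
    simp only [map_mul]
    exact sz_mul _ _
  · intro z
    have h1 : sz (L (z : O)) = e * |(z : ℝ)| := by
      have h2 : L (z : O) = Matrix.diagonal fun _ => z := by
        rw [map_intCast]
        ext i j
        by_cases hij : i = j
        · subst hij; simp [Matrix.intCast_apply]
        · simp [Matrix.intCast_apply, hij]
      rw [h2]
      unfold sz
      have h3 : ∀ i : ι, ∑ j, |((Matrix.diagonal (fun _ : ι => z) i j : ℤ) : ℝ)| = |(z : ℝ)| := by
        intro i
        rw [Finset.sum_eq_single i]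
        · simp
        · intro j _ hj
          rw [Matrix.diagonal_apply_ne _ (Ne.symm hj)]; simp
        · intro h; exact absurd (Finset.mem_univ i) h
      rw [Finset.sum_congr rfl fun i _ => h3 i]
      simp [he]
    show sz (L (z : O)) ≤ _
    rw [h1]
    refine mul_le_mul_of_nonneg_right ?_ (abs_nonneg _)
    rw [hC]; nlinarith
  · intro x
    refine (hphi x).trans (mul_le_mul_of_nonneg_right ?_ (sz_nonneg _))
    rw [hC]; nlinarith
  · intro x
    rw [hnorm]
    refine (det_bound (L x) (sz (L x)) (le_sz (L x))).trans ?_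
    refine mul_le_mul_of_nonneg_right ?_ (pow_nonneg (sz_nonneg _) _)
    rw [hC]; nlinarith
  · intro x hx
    have hN : Algebra.norm ℤ x ≠ 0 := Algebra.norm_ne_zero_iff.2 hx
    refine ⟨hN, ?_⟩
    have hLx : L x ≠ 0 := by
      intro h0
      apply hx
      apply hLinj
      rw [h0, map_zero]
    have hs1 : 1 ≤ sz (L x) := one_le_sz _ hLx
    set y := ∑ k, ((L x).adjugate.mulVec v k) • b k with hy
    have hxy := hadj x
    rw [← hy] at hxy
    have h1 : (1 : ℝ) ≤ ‖φ x‖ * ‖φ y‖ := by
      rw [← norm_mul, ← map_mul, hxy, map_intCast, Complex.norm_intCast]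
      exact_mod_cast Int.one_le_abs hN
    have h2 : ‖φ y‖ ≤ C1 * sz (L x).adjugate := key _
    have h3 : sz (L x).adjugate ≤ (e : ℝ) * (e * F) * sz (L x) ^ e := by
      unfold sz
      calc ∑ i, ∑ j, |((L x).adjugate i j : ℝ)|
          ≤ ∑ _i : ι, ∑ _j : ι, F * sz (L x) ^ e :=
            Finset.sum_le_sum fun i _ => Finset.sum_le_sum fun j _ =>
              adj_bound (L x) (sz (L x)) hs1 (le_sz (L x)) i j
        _ = (e : ℝ) * (e * F) * sz (L x) ^ e := by
            simp only [Finset.sum_const, Finset.card_univ, nsmul_eq_mul]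
            rw [← he]; ring
    have h4 : ‖φ y‖ ≤ C * sz (L x) ^ e := by
      calc ‖φ y‖ ≤ C1 * ((e : ℝ) * (e * F) * sz (L x) ^ e) :=
            h2.trans (mul_le_mul_of_nonneg_left h3 hC1')
        _ = C1 * ((e : ℝ) * (e * F)) * sz (L x) ^ e := by ring
        _ ≤ C * sz (L x) ^ e := by
            refine mul_le_mul_of_nonneg_right ?_ (pow_nonneg (sz_nonneg _) _)
            rw [hC]; nlinarith
    calc (1 : ℝ) ≤ ‖φ x‖ * ‖φ y‖ := h1
      _ ≤ ‖φ x‖ * (C * sz (L x) ^ e) := mul_le_mul_of_nonneg_left h4 (norm_nonneg _)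
      _ = C * sz (L x) ^ e * ‖φ x‖ := mul_comm _ _

end Pool.Agent.TH286.GT.Alg
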