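import Mathlib
import Pool.Agent.H9.Lib.R_seed8.TH286.GT.Stms2

/-!
Project GT, D1: a sum of powers which is small infinitely often gives a rational relation.
-/

set_option autoImplicit false

open Finset Filter Topology Matrix

namespace Pool.Agent.TH286.GT.PowO

open Pool.Agent.TH286.GT

section
variable {O : Type} [CommRing O]

/-- companion matrix -/
def comp {n : ℕ} (p : Fin n → ℤ) : Matrix (Fin n) (Fin n) ℤ :=
  fun j j' => if (j : ℕ) + 1 = n then p j' else if (j' : ℕ) = j + 1 then 1 else 0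

/-- `V j i = μ i ^ j` -/
def vd {n : ℕ} (μ : Fin n → O) : Matrix (Fin n) (Fin n) O := fun j i => μ i ^ (j : ℕ)

theorem vd_det_ne [IsDomain O] {n : ℕ} (μ : Fin n → O) (hμ : Function.Injective μ) :
    (vd μ).det ≠ 0 := by
  have : vd μ = (Matrix.vandermonde μ)ᵀ := rfl
  rw [this, Matrix.det_transpose]
  exact Matrix.det_vandermonde_ne_zero_iff.2 hμ

/-- the image of the companion matrix in `O` -/
def CO (O : Type) [CommRing O] {n : ℕ} (p : Fin n → ℤ) : Matrix (Fin n) (Fin n) O :=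
  (Int.castRingHom O).mapMatrix (comp p)

theorem comp_vd {n : ℕ} (μ : Fin n → O) (p : Fin n → ℤ)
    (hp : ∀ i, μ i ^ n = ∑ j, ((p j : ℤ) : O) * μ i ^ (j : ℕ)) :
    CO O p * vd μ = vd μ * Matrix.diagonal μ := by
  ext j i
  rw [Matrix.mul_apply, Matrix.mul_diagonal]
  simp only [CO, comp, vd, RingHom.mapMatrix_apply, Matrix.map_apply]
  by_cases h : (j : ℕ) + 1 = n
  · simp only [if_pos h]
    rw [← pow_succ, h, hp i]
    rfl
  · rw [Finset.sum_eq_single ⟨j + 1, by omega⟩]
    · simp [h, pow_succ]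
    · intro b _ hb
      rw [if_neg h, if_neg]
      · simp
      · intro hh
        exact hb (Fin.ext hh)
    · simp

theorem comp_pow_vd {n : ℕ} (μ : Fin n → O) (p : Fin n → ℤ)
    (hp : ∀ i, μ i ^ n = ∑ j, ((p j : ℤ) : O) * μ i ^ (j : ℕ)) (k : ℕ) :
    CO O p ^ k * vd μ = vd μ * Matrix.diagonal (fun i => μ i ^ k) := by
  induction k with
  | zero => simp
  | succ k ih =>
    rw [pow_succ', Matrix.mul_assoc, ih, ← Matrix.mul_assoc, comp_vd μ p hp, Matrix.mul_assoc,
      Matrix.diagonal_mul_diagonal]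
    congr 2
    funext i
    rw [pow_succ']

/-- the forms -/
noncomputable def MM {n : ℕ} (μ : Fin n → O) : Matrix (Fin n) (Fin n) O :=
  (vd μ).det • (vd μ).adjugate

theorem MM_det {n : ℕ} [IsDomain O] (μ : Fin n → O) (hμ : Function.Injective μ) :
    (MM μ).det ≠ 0 := by
  rw [MM, Matrix.det_smul, Matrix.det_adjugate]
  exact mul_ne_zero (pow_ne_zero _ (vd_det_ne μ hμ)) (pow_ne_zero _ (vd_det_ne μ hμ))

theorem MM_vd {n : ℕ} (μ : Fin n → O) : MM μ * vd μ = ((vd μ).det ^ 2) • (1 : Matrix _ _ O) := by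
  rw [MM, Matrix.smul_mul, Matrix.adjugate_mul, smul_smul, sq]

theorem MM_pow {n : ℕ} (μ : Fin n → O) (p : Fin n → ℤ)
    (hp : ∀ i, μ i ^ n = ∑ j, ((p j : ℤ) : O) * μ i ^ (j : ℕ)) (k : ℕ) :
    MM μ * CO O p ^ k = Matrix.diagonal (fun i => μ i ^ k) * MM μ := by
  have h1 : (vd μ).det • CO O p ^ k = vd μ * Matrix.diagonal (fun i => μ i ^ k) * (vd μ).adjugate := by
    rw [← comp_pow_vd μ p hp k, Matrix.mul_assoc, Matrix.mul_adjugate, Matrix.mul_smul,
      Matrix.mul_one]
  rw [MM, Matrix.smul_mul, ← Matrix.mul_smul, h1, ← Matrix.mul_assoc, ← Matrix.mul_assoc,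
    Matrix.adjugate_mul, Matrix.smul_mul, Matrix.one_mul, Matrix.smul_mul, Matrix.mul_smul]

/-- the state vectors -/
def XX {n : ℕ} (p : Fin n → ℤ) (m : ℕ) : Fin n → ℤ := fun j => Matrix.trace (comp p ^ (m + j))

theorem trace_eq [IsDomain O] {n : ℕ} (μ : Fin n → O) (hμ : Function.Injective μ) (p : Fin n → ℤ)
    (hp : ∀ i, μ i ^ n = ∑ j, ((p j : ℤ) : O) * μ i ^ (j : ℕ)) (k : ℕ) :
    ((Matrix.trace (comp p ^ k) : ℤ) : O) = ∑ i, μ i ^ k := by
  have h0 : ((Matrix.trace (comp p ^ k) : ℤ) : O) = Matrix.trace (CO O p ^ k) := by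
    rw [CO, ← map_pow]
    simp only [Matrix.trace, Matrix.diag, RingHom.mapMatrix_apply, Matrix.map_apply]
    rw [Int.cast_sum]
    rfl
  rw [h0]
  apply mul_left_cancel₀ (vd_det_ne μ hμ)
  calc (vd μ).det * Matrix.trace (CO O p ^ k)
      = Matrix.trace ((vd μ).det • CO O p ^ k) := by rw [Matrix.trace_smul, smul_eq_mul]
    _ = Matrix.trace (vd μ * Matrix.diagonal (fun i => μ i ^ k) * (vd μ).adjugate) := by
        congr 1
        rw [← comp_pow_vd μ p hp k, Matrix.mul_assoc, Matrix.mul_adjugate, Matrix.mul_smul,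
          Matrix.mul_one]
    _ = Matrix.trace ((vd μ).adjugate * (vd μ * Matrix.diagonal (fun i => μ i ^ k))) := by
        rw [Matrix.trace_mul_comm]
    _ = Matrix.trace ((vd μ).det • Matrix.diagonal (fun i => μ i ^ k)) := by
        rw [← Matrix.mul_assoc, Matrix.adjugate_mul, Matrix.smul_mul, Matrix.one_mul]
    _ = (vd μ).det * ∑ i, μ i ^ k := by
        rw [Matrix.trace_smul, smul_eq_mul, Matrix.trace_diagonal]

theorem XX_cast [IsDomain O] {n : ℕ} (μ : Fin n → O) (hμ : Function.Injective μ) (p : Fin n → ℤ)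
    (hp : ∀ i, μ i ^ n = ∑ j, ((p j : ℤ) : O) * μ i ^ (j : ℕ)) (m : ℕ) :
    (fun j => ((XX p m j : ℤ) : O)) = (vd μ).mulVec (fun i => μ i ^ m) := by
  funext j
  rw [XX, trace_eq μ hμ p hp, Matrix.mulVec, dotProduct]
  refine Finset.sum_congr rfl fun i _ => ?_
  rw [vd, pow_add, mul_comm]

theorem XX_step [IsDomain O] [CharZero O] {n : ℕ} (μ : Fin n → O) (hμ : Function.Injective μ)
    (p : Fin n → ℤ) (hp : ∀ i, μ i ^ n = ∑ j, ((p j : ℤ) : O) * μ i ^ (j : ℕ)) (m : ℕ) :
    XX p m = (comp p ^ m).mulVec (XX p 0) := by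
  funext j
  apply Int.cast_injective (α := O)
  have h1 : ((((comp p ^ m).mulVec (XX p 0)) j : ℤ) : O) =
      (CO O p ^ m).mulVec (fun j => ((XX p 0 j : ℤ) : O)) j := by
    rw [CO, ← map_pow]
    simp only [Matrix.mulVec, dotProduct, RingHom.mapMatrix_apply, Matrix.map_apply]
    rw [Int.cast_sum]
    refine Finset.sum_congr rfl fun i _ => ?_
    rw [Int.cast_mul]
    rfl
  rw [h1, XX_cast μ hμ p hp, Matrix.mulVec_mulVec, comp_pow_vd μ p hp, ← Matrix.mulVec_mulVec]
  have h2 := congrFun (XX_cast μ hμ p hp m) j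
  rw [h2]
  congr 1
  funext i
  rw [Matrix.mulVec_diagonal]
  simp

theorem MM_XX [IsDomain O] {n : ℕ} (μ : Fin n → O) (hμ : Function.Injective μ) (p : Fin n → ℤ)
    (hp : ∀ i, μ i ^ n = ∑ j, ((p j : ℤ) : O) * μ i ^ (j : ℕ)) (m : ℕ) (i : Fin n) :
    ∑ j, MM μ i j * ((XX p m j : ℤ) : O) = (vd μ).det ^ 2 * μ i ^ m := by
  have h : (MM μ).mulVec (fun j => ((XX p m j : ℤ) : O)) i = (vd μ).det ^ 2 * μ i ^ m := by
    rw [XX_cast μ hμ p hp, Matrix.mulVec_mulVec, MM_vd, Matrix.smul_mulVec, Matrix.one_mulVec]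
    rfl
  exact h

/-- rows of `A` for the indices in `S`, rows of `B` otherwise -/
def pick {n : ℕ} (S : Finset (Fin n)) (A B : Matrix (Fin n) (Fin n) O) :
    Matrix (Fin n) (Fin n) O := fun i j => if i ∈ S then A i j else B i j

/-- a choice of rows -/
theorem choice {n : ℕ} (A B : Matrix (Fin n) (Fin n) O) (h : (A + B).det ≠ 0) :
    ∃ S : Finset (Fin n), (pick S A B).det ≠ 0 := by
  by_contra hcon
  push Not at hcon
  apply h
  have h1 := (Matrix.detRowAlternating (n := Fin n) (R := O)).toMultilinearMap.map_add_univ A B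
  have h2 : (A + B).det =
      (Matrix.detRowAlternating (n := Fin n) (R := O)).toMultilinearMap (A + B) := rfl
  refine h2.trans (h1.trans ?_)
  refine Finset.sum_eq_zero fun S _ => ?_
  refine Eq.trans ?_ (hcon S)
  have e : pick S A B = S.piecewise A B := by
    funext i j
    by_cases hi : i ∈ S
    · rw [pick, if_pos hi]
      exact (congrFun (Finset.piecewise_eq_of_mem S (fun i => (A i : Fin n → O))
        (fun i => (B i : Fin n → O)) hi) j).symm
    · rw [pick, if_neg hi]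
      exact (congrFun (Finset.piecewise_eq_of_notMem S (fun i => (A i : Fin n → O))
        (fun i => (B i : Fin n → O)) hi) j).symm
  rw [e]
  rfl

end

/-- norm of the real and imaginary parts -/
theorem re_part {O : Type} [CommRing O] (φ : O →+* ℂ) (st : O →+* O)
    (hst : ∀ x, φ (st x) = (starRingEnd ℂ) (φ x)) (x : O) :
    (φ (x + st x)).im = 0 ∧ ‖φ (x + st x)‖ ≤ 2 * ‖φ x‖ := by
  constructor
  · rw [map_add, hst, Complex.add_im, Complex.conj_im]
    ring
  · rw [map_add, hst]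
    refine (norm_add_le _ _).trans ?_
    rw [Complex.norm_conj]
    linarith

theorem im_part {O : Type} [CommRing O] (φ : O →+* ℂ) (st : O →+* O)
    (hst : ∀ x, φ (st x) = (starRingEnd ℂ) (φ x)) (iO : O) (hi : φ iO = Complex.I) (x : O) :
    (φ (iO * (x - st x))).im = 0 ∧ ‖φ (iO * (x - st x))‖ ≤ 2 * ‖φ x‖ := by
  constructor
  · rw [map_mul, map_sub, hst, hi]
    simp [Complex.mul_im]
  · rw [map_mul, map_sub, hst, hi, norm_mul, Complex.norm_I, one_mul]
    refine (norm_sub_le _ _).trans ?_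
    rw [Complex.norm_conj]
    linarith

/-- the real forms: rows of `M1` replaced by real or imaginary parts -/
theorem real_forms {O : Type} [CommRing O] [IsDomain O] [CharZero O] (φ : O →+* ℂ) (st : O →+* O)
    (hst : ∀ x, φ (st x) = (starRingEnd ℂ) (φ x)) (iO : O) (hi : φ iO = Complex.I) {n : ℕ}
    (M1 : Matrix (Fin n) (Fin n) O) (h1 : M1.det ≠ 0) :
    ∃ M0 : Matrix (Fin n) (Fin n) O, M0.det ≠ 0 ∧ (∀ i j, (φ (M0 i j)).im = 0) ∧
      ∀ (i : Fin n) (x : Fin n → ℤ), ‖φ (∑ j, M0 i j * ((x j : ℤ) : O))‖ ≤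
        2 * ‖φ (∑ j, M1 i j * ((x j : ℤ) : O))‖ := by
  obtain ⟨S, hS⟩ := choice (M1.map (fun x => x + st x)) (M1.map (fun x => x - st x)) (by
    have e : M1.map (fun x => x + st x) + M1.map (fun x => x - st x) = (2 : O) • M1 := by
      ext i j
      simp only [Matrix.add_apply, Matrix.map_apply, Matrix.smul_apply, smul_eq_mul]
      ring
    rw [e, Matrix.det_smul]
    exact mul_ne_zero (pow_ne_zero _ two_ne_zero) h1)
  have hi0 : iO ≠ 0 := by
    rintro rfl
    rw [map_zero] at hi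
    exact Complex.I_ne_zero hi.symm
  let M0 : Matrix (Fin n) (Fin n) O := fun i j =>
    if i ∈ S then M1 i j + st (M1 i j) else iO * (M1 i j - st (M1 i j))
  have hM0 : ∀ i j, M0 i j = if i ∈ S then M1 i j + st (M1 i j) else
      iO * (M1 i j - st (M1 i j)) := fun _ _ => rfl
  have hstz : ∀ z : ℤ, st ((z : ℤ) : O) = ((z : ℤ) : O) := fun z => map_intCast st z
  refine ⟨M0, ?_, ?_, ?_⟩
  · have e : M0 = Matrix.of (fun i j => (fun i => if i ∈ S then (1 : O) else iO) i *
        pick S (M1.map (fun x => x + st x)) (M1.map (fun x => x - st x)) i j) := by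
      ext i j
      rw [hM0]
      simp only [Matrix.of_apply, pick, Matrix.map_apply]
      by_cases h : i ∈ S
      · simp [h]
      · simp [h]
    rw [e, Matrix.det_mul_column]
    refine mul_ne_zero (Finset.prod_ne_zero_iff.2 fun i _ => ?_) hS
    by_cases h : i ∈ S
    · simp [h]
    · simp [h, hi0]
  · intro i j
    rw [hM0]
    by_cases h : i ∈ S
    · rw [if_pos h]
      exact (re_part φ st hst _).1
    · rw [if_neg h]
      exact (im_part φ st hst iO hi _).1
  · intro i x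
    by_cases h : i ∈ S
    · have e : ∑ j, M0 i j * ((x j : ℤ) : O) = (∑ j, M1 i j * ((x j : ℤ) : O)) +
          st (∑ j, M1 i j * ((x j : ℤ) : O)) := by
        rw [map_sum, ← Finset.sum_add_distrib]
        refine Finset.sum_congr rfl fun j _ => ?_
        rw [hM0, if_pos h, map_mul, hstz]
        ring
      rw [e]
      exact (re_part φ st hst _).2
    · have e : ∑ j, M0 i j * ((x j : ℤ) : O) = iO * ((∑ j, M1 i j * ((x j : ℤ) : O)) -
          st (∑ j, M1 i j * ((x j : ℤ) : O))) := by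
        rw [map_sum, ← Finset.sum_sub_distrib, Finset.mul_sum]
        refine Finset.sum_congr rfl fun j _ => ?_
        rw [hM0, if_neg h, map_mul, hstz]
        ring
      rw [e]
      exact (im_part φ st hst iO hi _).2

lemma phi_ne {O : Type} [CommRing O] [IsDomain O] [Module.Finite ℤ O] (φ : O →+* ℂ)
    {x : O} (hx : x ≠ 0) : φ x ≠ 0 := by
  intro h0
  have h1 : x ∈ RingHom.ker φ := h0
  have h2 := Ideal.comap_ne_bot_of_integral_mem (R := ℤ) hx h1 (Algebra.IsIntegral.isIntegral x)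
  apply h2
  rw [eq_bot_iff]
  intro z hz
  rw [Ideal.mem_comap, RingHom.mem_ker] at hz
  rw [eq_intCast, map_intCast] at hz
  have h3 : z = 0 := by exact_mod_cast hz
  rw [h3]
  exact Submodule.zero_mem _

/-- the numerical part -/
theorem numer {n : ℕ} (i0 : Fin n) (L : Fin n → ℝ) (lK lKK lR : ℝ) (hg : lR < L i0) :
    ∃ c γ : ℝ, 1 ≤ c ∧ 0 < γ ∧ ∃ m0 : ℕ, ∀ m : ℕ, m0 ≤ m →
      (m : ℝ) * ∑ l, L l ≤ c * m ∧
      (∀ l, |if l = i0 then lKK + m * lR else lK + m * L l| ≤ c * m) ∧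
      ∑ l, (if l = i0 then lKK + m * lR else lK + m * L l) + γ * m ≤ m * ∑ l, L l := by
  set g : ℝ := L i0 - lR with hgd
  have hg0 : 0 < g := by rw [hgd]; linarith
  set Q : ℝ := |n * lK + lKK - lK| with hQd
  obtain ⟨m1, hm1⟩ := exists_nat_ge (2 * Q / g)
  have hSL : 0 ≤ ∑ l, |L l| := Finset.sum_nonneg fun _ _ => abs_nonneg _
  refine ⟨1 + |lKK| + |lK| + |lR| + ∑ l, |L l|, g / 2, ?_, by positivity, max 1 m1, ?_⟩
  · have := abs_nonneg lKK
    have := abs_nonneg lK
    have := abs_nonneg lR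
    linarith
  intro m hm
  have hm1' : (1 : ℝ) ≤ m := by exact_mod_cast (le_max_left 1 m1).trans hm
  have hm2' : 2 * Q / g ≤ m := hm1.trans (by exact_mod_cast (le_max_right 1 m1).trans hm)
  have hm0 : (0 : ℝ) ≤ m := by linarith
  have hQ : Q ≤ g / 2 * m := by
    rw [div_le_iff₀ hg0] at hm2'
    linarith
  refine ⟨?_, ?_, ?_⟩
  · have h1 : ∑ l, L l ≤ ∑ l, |L l| := Finset.sum_le_sum fun _ _ => le_abs_self _
    have h2 : (m : ℝ) * ∑ l, L l ≤ m * ∑ l, |L l| := mul_le_mul_of_nonneg_left h1 hm0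
    have h3 : 0 ≤ (1 + |lKK| + |lK| + |lR|) * m := by positivity
    nlinarith
  · intro l
    have hL : |L l| ≤ ∑ l, |L l| :=
      Finset.single_le_sum (f := fun l => |L l|) (fun _ _ => abs_nonneg _) (Finset.mem_univ l)
    have e1 : ∀ a b : ℝ, |a + m * b| ≤ |a| * m + |b| * m := by
      intro a b
      refine (abs_add_le _ _).trans ?_
      rw [abs_mul, abs_of_nonneg hm0, mul_comm (m : ℝ)]
      have : |a| * 1 ≤ |a| * m := mul_le_mul_of_nonneg_left hm1' (abs_nonneg a)
      linarith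
    have p1 : 0 ≤ |lKK| * m := by positivity
    have p2 : 0 ≤ |lK| * m := by positivity
    have p3 : 0 ≤ |lR| * m := by positivity
    have p4 : 0 ≤ (∑ l, |L l|) * m := by positivity
    by_cases h : l = i0
    · rw [if_pos h]
      refine (e1 _ _).trans ?_
      nlinarith
    · rw [if_neg h]
      refine (e1 _ _).trans ?_
      have : |L l| * m ≤ (∑ l, |L l|) * m := mul_le_mul_of_nonneg_right hL hm0
      nlinarith
  · have h1 : ∑ l, (if l = i0 then lKK + m * lR else lK + m * L l) =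
        ∑ l, ((lK + m * L l) + if l = i0 then (lKK + m * lR - lK - m * L i0) else 0) := by
      refine Finset.sum_congr rfl fun l _ => ?_
      by_cases h : l = i0
      · subst h
        simp
      · simp [h]
    rw [h1, Finset.sum_add_distrib, Finset.sum_ite_eq' Finset.univ i0, if_pos (Finset.mem_univ _),
      Finset.sum_add_distrib, Finset.sum_const, Finset.card_univ, Fintype.card_fin, nsmul_eq_mul,
      ← Finset.mul_sum]
    have h2 : n * lK + lKK - lK ≤ g / 2 * m := (le_abs_self _).trans hQ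
    have h3 : (m : ℝ) * lR = m * L i0 - g * m := by rw [hgd]; ring
    linarith

theorem powO (O : Type) [CommRing O] [IsDomain O] [Module.Free ℤ O] [Module.Finite ℤ O]
    (φ : O →+* ℂ) (hsub : SubOStmt O φ) : PowOStmt O φ := by
  intro st hst iO hi n μ hμ hμ0 p hp c i0 hc0 R K0 hR hK0 hRμ nn hnn hsmall
  have : CharZero O := RingHom.charZero φ
  have hn : 1 ≤ n := by have := i0.2; omega
  set Δ : O := (vd μ).det ^ 2 with hΔd
  have hΔ : Δ ≠ 0 := pow_ne_zero _ (vd_det_ne μ hμ)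
  have hφΔ : 0 < ‖φ Δ‖ := norm_pos_iff.2 (phi_ne φ hΔ)
  -- the modified forms
  let M1 : Matrix (Fin n) (Fin n) O := (MM μ).updateRow i0 (∑ k, c k • (MM μ) k)
  have hM1det : M1.det ≠ 0 := by
    have e : M1.det = c i0 • (MM μ).det := Matrix.det_updateRow_sum (MM μ) i0 c
    rw [e, smul_eq_mul]
    exact mul_ne_zero hc0 (MM_det μ hμ)
  have hM1a : ∀ m, ∑ j, M1 i0 j * ((XX p m j : ℤ) : O) = Δ * ∑ k, c k * μ k ^ m := by
    intro m
    have e1 : ∀ j, M1 i0 j = ∑ k, c k * MM μ k j := by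
      intro j
      have : M1 i0 = ∑ k, c k • (MM μ) k := Matrix.updateRow_self
      rw [this]
      simp [Finset.sum_apply]
    calc ∑ j, M1 i0 j * ((XX p m j : ℤ) : O)
        = ∑ j, ∑ k, c k * (MM μ k j * ((XX p m j : ℤ) : O)) := by
          refine Finset.sum_congr rfl fun j _ => ?_
          rw [e1, Finset.sum_mul]
          refine Finset.sum_congr rfl fun k _ => ?_
          ring
      _ = ∑ k, c k * ∑ j, MM μ k j * ((XX p m j : ℤ) : O) := by
          rw [Finset.sum_comm]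
          refine Finset.sum_congr rfl fun k _ => ?_
          rw [Finset.mul_sum]
      _ = Δ * ∑ k, c k * μ k ^ m := by
          rw [Finset.mul_sum]
          refine Finset.sum_congr rfl fun k _ => ?_
          rw [MM_XX μ hμ p hp]
          ring
  have hM1b : ∀ m i, i ≠ i0 → ∑ j, M1 i j * ((XX p m j : ℤ) : O) = Δ * μ i ^ m := by
    intro m i hii
    have e1 : ∀ j, M1 i j = MM μ i j := fun j => by
      have : M1 i = (MM μ) i := Matrix.updateRow_ne hii
      rw [this]
    rw [← MM_XX μ hμ p hp m i]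
    exact Finset.sum_congr rfl fun j _ => by rw [e1]
  obtain ⟨M0, hM0det, hM0im, hM0le⟩ := real_forms φ st hst iO hi M1 hM1det
  -- the sizes
  have hμpos : ∀ l, 0 < ‖φ (μ l)‖ := fun l => norm_pos_iff.2 (phi_ne φ (hμ0 l))
  set K : ℝ := 2 * ‖φ Δ‖ with hKd
  have hK : 0 < K := by positivity
  let A : ℕ → Fin n → ℝ := fun m l => if l = i0 then K * K0 * R ^ m else K * ‖φ (μ l)‖ ^ m
  have hA0 : ∀ m l, 0 < A m l := by
    intro m l
    show 0 < if l = i0 then K * K0 * R ^ m else K * ‖φ (μ l)‖ ^ m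
    have := hμpos l
    by_cases h : l = i0
    · rw [if_pos h]; positivity
    · rw [if_neg h]; positivity
  have hlogA : ∀ m l, Real.log (A m l) = if l = i0 then Real.log (K * K0) + m * Real.log R else
      Real.log K + m * Real.log ‖φ (μ l)‖ := by
    intro m l
    show Real.log (if l = i0 then K * K0 * R ^ m else K * ‖φ (μ l)‖ ^ m) = _
    by_cases h : l = i0
    · rw [if_pos h, if_pos h, Real.log_mul (by positivity) (by positivity), Real.log_pow]
    · have := hμpos l
      rw [if_neg h, if_neg h, Real.log_mul (by positivity) (by positivity), Real.log_pow]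
  -- the determinant
  have hdetO : (((comp p).det : ℤ) : O) = ∏ l, μ l := by
    have h1 := congrArg Matrix.det (MM_pow μ p hp 1)
    rw [Matrix.det_mul, Matrix.det_mul, Matrix.det_diagonal, pow_one, mul_comm] at h1
    have h2 := mul_right_cancel₀ (MM_det μ hμ) h1
    simp only [pow_one] at h2
    rw [← h2, CO, ← RingHom.map_det]
    rfl
  have hlogdet : ∀ m : ℕ, Real.log |(((comp p ^ m).det : ℤ) : ℝ)| =
      m * ∑ l, Real.log ‖φ (μ l)‖ := by
    intro m
    have h1 : |(((comp p).det : ℤ) : ℝ)| = ∏ l, ‖φ (μ l)‖ := by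
      rw [← norm_prod, ← map_prod, ← hdetO, map_intCast, Complex.norm_intCast]
    rw [Matrix.det_pow, Int.cast_pow, abs_pow, Real.log_pow, h1,
      Real.log_prod (fun l _ => (hμpos l).ne')]
  have hdet0 : (comp p).det ≠ 0 := by
    intro h0
    rw [h0, Int.cast_zero] at hdetO
    exact (Finset.prod_ne_zero_iff.2 fun l _ => hμ0 l) hdetO.symm
  obtain ⟨cc, γ, hcc, hγ, m0, hm0⟩ := numer i0 (fun l => Real.log ‖φ (μ l)‖) (Real.log K)
    (Real.log (K * K0)) (Real.log R) (Real.log_lt_log hR hRμ)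
  obtain ⟨t0, ht0⟩ := Filter.eventually_atTop.1 (hnn.eventually_ge_atTop m0)
  have hge : ∀ t, m0 ≤ nn (t + t0) := fun t => ht0 _ (by omega)
  have htt : Tendsto (fun t => t + t0) atTop atTop := tendsto_add_atTop_nat t0
  obtain ⟨y, hy, hfr⟩ := hsub n 1 hn M0 (MM μ) (fun _ i => μ i)
    ⟨hM0det, hM0im, MM_det μ hμ, fun _ l => hμ0 l⟩ cc γ hcc hγ
    (fun t => (nn (t + t0) : ℝ)) (tendsto_natCast_atTop_atTop.comp (hnn.comp htt))
    (fun t _ => nn (t + t0)) (fun t => comp p ^ nn (t + t0))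
    (by
      intro t
      refine ⟨by rw [Matrix.det_pow]; exact pow_ne_zero _ hdet0, ?_⟩
      have h1 := MM_pow μ p hp (nn (t + t0))
      rw [CO, ← map_pow] at h1
      refine h1.trans ?_
      congr 2
      funext l
      simp [bet])
    (fun t => A (nn (t + t0)))
    (by
      intro t
      obtain ⟨h1, h2, h3⟩ := hm0 _ (hge t)
      refine ⟨?_, fun l => hA0 _ l, fun l => ?_, ?_⟩
      · rw [hlogdet]; exact h1
      · rw [hlogA]; exact h2 l
      · rw [hlogdet, Finset.sum_congr rfl fun l _ => hlogA (nn (t + t0)) l]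
        exact h3)
    (fun t => XX p (nn (t + t0)))
    (by
      intro t h0
      have h1 := MM_XX μ hμ p hp (nn (t + t0)) i0
      rw [h0] at h1
      simp only [Pi.zero_apply, Int.cast_zero, mul_zero, Finset.sum_const_zero] at h1
      exact mul_ne_zero hΔ (pow_ne_zero _ (hμ0 i0)) h1.symm)
    (by
      intro t
      refine ⟨fun l => ?_, XX p 0, XX_step μ hμ p hp _⟩
      refine (hM0le l _).trans ?_
      show _ ≤ if l = i0 then K * K0 * R ^ nn (t + t0) else K * ‖φ (μ l)‖ ^ nn (t + t0)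
      by_cases h : l = i0
      · rw [if_pos h, h, hM1a, map_mul, norm_mul]
        have := hsmall (t + t0)
        calc 2 * (‖φ Δ‖ * ‖φ (∑ k, c k * μ k ^ nn (t + t0))‖)
            ≤ 2 * (‖φ Δ‖ * (K0 * R ^ nn (t + t0))) := by gcongr
          _ = K * K0 * R ^ nn (t + t0) := by rw [hKd]; ring
      · rw [if_neg h, hM1b _ _ h, map_mul, norm_mul, map_pow φ (μ l), norm_pow (φ (μ l)), hKd,
          mul_assoc])
  refine ⟨y, hy, htt.frequently (hfr.mono fun t ht => ?_)⟩
  have h1 : ((∑ l, y l * XX p (nn (t + t0)) l : ℤ) : O) = 0 := by rw [ht]; simp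
  rw [Int.cast_sum] at h1
  rw [← h1]
  refine Finset.sum_congr rfl fun j _ => ?_
  rw [Int.cast_mul, XX, trace_eq μ hμ p hp]

end Pool.Agent.TH286.GT.PowO
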